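import Pool.Agent.Lib_helper54.RM.Dich2

/-! Simplicity of the image from the multiplicities of two cocharacters. -/

set_option autoImplicit false
set_option linter.unusedSectionVars false

namespace Pool.Agent.RM

open Module LieModule Pool.Agent.SJ

attribute [local instance 100] LieRing.ofAssociativeRing

section factors

variable {K L U : Type*} [Field K] [CharZero K] [IsAlgClosed K] [LieRing L] [LieAlgebra K L]
  [AddCommGroup U] [Module K U] [LieRingModule L U] [LieModule K L U] [IsIrreducible K L U]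
  [FiniteDimensional K U]

/-- The dimensions of the factors of a tensor product. -/
theorem factors {J C : LieIdeal K L} (hJC : J ⊔ C = ⊤) (hc : ∀ x ∈ J, ∀ y ∈ C, ⁅x, y⁆ = 0)
    (hf : ∀ x : L, (∀ u : U, ⁅x, u⁆ = 0) → x = 0)
    (ht : ∀ x : L, LinearMap.trace K U (toEnd K L U x) = 0) (hJ : J ≠ ⊥) (hC : C ≠ ⊥) :
    ∃ α β : ℕ, 2 ≤ α ∧ 2 ≤ β ∧ α * β = finrank K U ∧
      (∀ W : Submodule K U, (∀ x ∈ J, ∀ w ∈ W, ⁅x, w⁆ ∈ W) → α ∣ finrank K W) ∧
      (∀ W : Submodule K U, (∀ y ∈ C, ∀ w ∈ W, ⁅y, w⁆ ∈ W) → β ∣ finrank K W) := by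
  classical
  have hnt : Nontrivial U := nontrivial_of_isIrreducible K L U
  have hd0 : (finrank K U : K) ≠ 0 := Nat.cast_ne_zero.mpr Module.finrank_pos.ne'
  let SJ : Set (Module.End K U) := {T | ∃ x ∈ J, toEnd K L U x = T}
  let SC : Set (Module.End K U) := {T | ∃ x ∈ C, toEnd K L U x = T}
  let A : Subalgebra K (Module.End K U) := Algebra.adjoin K SJ
  let B : Subalgebra K (Module.End K U) := Algebra.adjoin K SC
  have hcm : ∀ x ∈ SJ, ∀ y ∈ SC, x * y = y * x := by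
    rintro _ ⟨x, hx, rfl⟩ _ ⟨y, hy, rfl⟩
    have h1 := (toEnd K L U).map_lie x y
    rw [hc x hx y hy, map_zero] at h1
    exact sub_eq_zero.mp h1.symm
  have hAB : ∀ x ∈ A, ∀ y ∈ B, x * y = y * x := adj_comm hcm
  have hSC : SMulCommClass B A U := ⟨fun y x v => by
    have := LinearMap.congr_fun (hAB x.1 x.2 y.1 y.2) v
    exact this.symm⟩
  have hdec : ∀ z : L, ∃ x ∈ J, ∃ y ∈ C, x + y = z := by
    intro z
    have : z ∈ J ⊔ C := by rw [hJC]; exact LieSubmodule.mem_top z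
    rwa [LieSubmodule.mem_sup] at this
  have hirr' : ∀ W : Submodule K U, (∀ x : A, ∀ w ∈ W, x • w ∈ W) →
      (∀ y : B, ∀ w ∈ W, y • w ∈ W) → W = ⊥ ∨ W = ⊤ := by
    intro W h1 h2
    let W' : LieSubmodule K L U :=
      { W with
        lie_mem := by
          intro z w hw
          obtain ⟨x, hx, y, hy, rfl⟩ := hdec z
          rw [add_lie]
          exact W.add_mem (h1 ⟨toEnd K L U x, Algebra.subset_adjoin ⟨x, hx, rfl⟩⟩ w hw)
            (h2 ⟨toEnd K L U y, Algebra.subset_adjoin ⟨y, hy, rfl⟩⟩ w hw) }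
    have hWW : (W' : Submodule K U) = W := rfl
    rcases eq_bot_or_eq_top W' with h | h
    · left; rw [← hWW, h]; simp
    · right; rw [← hWW, h]; simp
  obtain ⟨α, β, hα0, hβ0, hαβ, hAd, hBd, hα1, hβ1, -⟩ :=
    dims2 (K := K) (V := U) (A := A) (B := B) hirr'
  have hst : ∀ (S : Set (Module.End K U)) (W : Submodule K U), (∀ x ∈ S, ∀ w ∈ W, x w ∈ W) →
      ∀ x ∈ Algebra.adjoin K S, ∀ w ∈ W, x w ∈ W := fun S W hW =>
    adj_stable (K := K) (S := S) hW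
  have hsc0 : ∀ x : L, (∃ c : K, ∀ v : U, ⁅x, v⁆ = c • v) → x = 0 := by
    rintro x ⟨c, hc'⟩
    have h1 : toEnd K L U x = c • (1 : Module.End K U) := LinearMap.ext fun v => hc' v
    have h2 := ht x
    rw [h1, map_smul, LinearMap.trace_one, smul_eq_mul] at h2
    refine hf x fun v => ?_
    rw [hc', (mul_eq_zero.mp h2).resolve_right hd0, zero_smul]
  refine ⟨α, β, ?_, ?_, hαβ, ?_, ?_⟩
  · by_contra hlt
    have h1 : α = 1 := by omega
    apply hJ
    rw [LieSubmodule.eq_bot_iff]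
    intro x hx
    exact hsc0 x (hα1 h1 ⟨toEnd K L U x, Algebra.subset_adjoin ⟨x, hx, rfl⟩⟩)
  · by_contra hlt
    have h1 : β = 1 := by omega
    apply hC
    rw [LieSubmodule.eq_bot_iff]
    intro x hx
    exact hsc0 x (hβ1 h1 ⟨toEnd K L U x, Algebra.subset_adjoin ⟨x, hx, rfl⟩⟩)
  · intro W hW
    have h1 := hst SJ W (by
      rintro _ ⟨x, hx, rfl⟩ w hw
      exact hW x hx w hw)
    exact hAd { W with smul_mem' := fun x w hw => h1 x.1 x.2 w hw }
  · intro W hW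
    have h1 := hst SC W (by
      rintro _ ⟨x, hx, rfl⟩ w hw
      exact hW x hx w hw)
    exact hBd { W with smul_mem' := fun x w hw => h1 x.1 x.2 w hw }

end factors

variable {K : Type*} [Field K] [CharZero K] [IsAlgClosed K] {g : Type*} [LieRing g]
  [LieAlgebra K g]

/-- If the elements h of square 1/4 in P generate, and the dimension of U does not divide
gcd(m, d, rank x) gcd(m', d) for two such elements with multiplicities m, m', then the image of g is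
simple. -/
theorem psimple_gcd2 (U : Type*) [AddCommGroup U] [Module K U] [FiniteDimensional K U]
    [LieRingModule g U] [LieModule K g U] [LieModule.IsIrreducible K g U] (P : Set g)
    (hP : ∀ h ∈ P, ∀ v : U, ⁅h, ⁅h, v⁆⁆ = (1 / 4 : K) • v)
    (HT : ∀ I : LieIdeal K g, (∀ h ∈ P, h ∈ I) → I = ⊤) (N : g)
    (hN : ∀ v : U, ⁅N, ⁅N, v⁆⁆ = 0)
    (hg : ∀ h ∈ P, ∀ h' ∈ P, (¬ ∃ c : K, ∀ v : U, ⁅h, v⁆ = c • v) →
      (¬ ∃ c : K, ∀ v : U, ⁅h', v⁆ = c • v) →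
      ¬ finrank K U ∣ Nat.gcd (finrank K (Module.End.eigenspace (toEnd K g U h) (1/2)))
        (Nat.gcd (finrank K U) (finrank K (LinearMap.range (toEnd K g U N)))) *
        Nat.gcd (finrank K (Module.End.eigenspace (toEnd K g U h') (1/2))) (finrank K U)) :
    Pool.Agent.OU.PSimple K g U := by
  obtain ⟨htr, hfa, hirr, hz, hI⟩ := Pool.Agent.GS.facts (K := K) (g := g) U
  intro I
  rcases hI I with h | h | ⟨J, C, hJ, hC, hJC, hJC', hc⟩
  · exact Or.inl h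
  · exact Or.inr h
  exfalso
  have hnt : Nontrivial U := nontrivial_of_isIrreducible K g U
  let L : LieSubalgebra K (Module.End K U) := (Pool.Agent.GS.phi (g := g) U).range
  let f : g →ₗ⁅K⁆ L := (Pool.Agent.GS.phi (g := g) U).rangeRestrict
  have hf : Function.Surjective f := (Pool.Agent.GS.phi (g := g) U).surjective_rangeRestrict
  obtain ⟨κ, hκ⟩ : ∃ κ : g → K, ∀ z, κ z = (finrank K U : K)⁻¹ * LinearMap.trace K U (toEnd K g U z) :=
    ⟨_, fun _ => rfl⟩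
  have hfv : ∀ (z : g) (v : U), ⁅f z, v⁆ = ⁅z, v⁆ - κ z • v := fun z v => by rw [hκ]; rfl
  -- generators outside a proper ideal
  have hex : ∀ Q : LieIdeal K L, Q ≠ ⊤ → ∃ h ∈ P, f h ∉ Q := by
    intro Q hQ
    by_contra hcon
    push Not at hcon
    have h1 := HT (Q.comap f) fun h hh => (LieIdeal.mem_comap).mpr (hcon h hh)
    refine hQ (eq_top_iff.mpr fun x _ => ?_)
    obtain ⟨z, rfl⟩ := hf x
    have : z ∈ Q.comap f := by rw [h1]; exact LieSubmodule.mem_top z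
    exact LieIdeal.mem_comap.mp this
  have hJt : J ≠ ⊤ := fun h => hC (by rwa [h, top_inf_eq] at hJC')
  have hCt : C ≠ ⊤ := fun h => hJ (by rwa [h, inf_top_eq] at hJC')
  obtain ⟨h₁, p₁, n₁⟩ := hex C hCt
  obtain ⟨h₂, p₂, n₂⟩ := hex J hJt
  have hor : ∀ h ∈ P, f h ∈ J ∨ f h ∈ C := by
    intro h ph
    refine Pool.Agent.GS.mem_or (U := U) (c := κ h) (d := 1/4) hJC hc hfa hz fun u => ?_
    rw [hfv, add_sub_cancel, hfv, add_sub_cancel, hP h ph]
  have m₁ : f h₁ ∈ J := (hor h₁ p₁).resolve_right n₁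
  have m₂ : f h₂ ∈ C := (hor h₂ p₂).resolve_left n₂
  have hns : ∀ h : g, (∃ c : K, ∀ v : U, ⁅h, v⁆ = c • v) → f h = 0 := by
    rintro h ⟨c, hc'⟩
    refine hfa _ fun v => ?_
    have hn : (finrank K U : K) ≠ 0 := Nat.cast_ne_zero.mpr Module.finrank_pos.ne'
    have h1 : toEnd K g U h = c • (1 : Module.End K U) := LinearMap.ext fun v => hc' v
    rw [hfv, hκ, h1, map_smul, LinearMap.trace_one, smul_eq_mul, mul_comm c,
      inv_mul_cancel_left₀ hn, hc', sub_self]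
  have s₁ : ¬ ∃ c : K, ∀ v : U, ⁅h₁, v⁆ = c • v := fun h => n₁ (by
    rw [hns h₁ h]; exact C.zero_mem)
  have s₂ : ¬ ∃ c : K, ∀ v : U, ⁅h₂, v⁆ = c • v := fun h => n₂ (by
    rw [hns h₂ h]; exact J.zero_mem)
  have hcu : ∀ x ∈ J, ∀ y ∈ C, ∀ u : U, ⁅x, ⁅y, u⁆⁆ = ⁅y, ⁅x, u⁆⁆ := fun x hx y hy u => by
    rw [leibniz_lie, hc x hx y hy, zero_lie, zero_add]
  obtain ⟨α, β, hα, hβ, hαβ, hJd, hCd⟩ := factors (U := U) hJC hc hfa htr hJ hC
  -- the divisibilities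
  have hNt : κ N = 0 := by
    have h1 : LinearMap.trace K U (toEnd K g U N) = 0 := by
      refine (LinearMap.isNilpotent_trace_of_isNilpotent ⟨2, ?_⟩).eq_zero
      rw [pow_two]
      exact LinearMap.ext fun v => hN v
    rw [hκ, h1, mul_zero]
  have hNf : ∀ v : U, ⁅f N, v⁆ = ⁅N, v⁆ := fun v => by rw [hfv, hNt, zero_smul, sub_zero]
  have eig1 : ∀ h : g, f h ∈ J → β ∣ finrank K (Module.End.eigenspace (toEnd K g U h) (1/2)) := by
    intro h hh
    refine hCd _ fun y hy w hw => ?_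
    rw [Module.End.mem_eigenspace_iff] at hw ⊢
    have e1 : ∀ v : U, toEnd K g U h v = ⁅f h, v⁆ + κ h • v := fun v => by
      rw [hfv]; simp
    rw [e1] at hw ⊢
    rw [hcu _ hh y hy w, ← lie_smul, ← lie_add, hw, lie_smul]
  have eig2 : ∀ h : g, f h ∈ C → α ∣ finrank K (Module.End.eigenspace (toEnd K g U h) (1/2)) := by
    intro h hh
    refine hJd _ fun y hy w hw => ?_
    rw [Module.End.mem_eigenspace_iff] at hw ⊢
    have e1 : ∀ v : U, toEnd K g U h v = ⁅f h, v⁆ + κ h • v := fun v => by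
      rw [hfv]; simp
    rw [e1] at hw ⊢
    rw [← hcu y hy _ hh w, ← lie_smul, ← lie_add, hw, lie_smul]
  have hαd : α ∣ finrank K U := ⟨β, hαβ.symm⟩
  have hβd : β ∣ finrank K U := ⟨α, by rw [mul_comm]; exact hαβ.symm⟩
  have mN : f N ∈ J ∨ f N ∈ C := Pool.Agent.GS.mem_or (U := U) (c := 0) (d := 0) hJC hc hfa hz
    fun u => by rw [zero_smul, zero_smul, zero_add, zero_add, hNf, hNf, hN]
  rcases mN with m | m
  · refine hg h₁ p₁ h₂ p₂ s₁ s₂ ?_
    have h1 : β ∣ finrank K (LinearMap.range (toEnd K g U N)) := by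
      refine hCd _ ?_
      rintro y hy _ ⟨v, rfl⟩
      refine ⟨⁅y, v⁆, ?_⟩
      show ⁅N, ⁅y, v⁆⁆ = ⁅y, ⁅N, v⁆⁆
      rw [← hNf, ← hNf, hcu _ m y hy]
    rw [← hαβ]
    rw [mul_comm α β]
    exact Nat.mul_dvd_mul (Nat.dvd_gcd (eig1 h₁ m₁) (Nat.dvd_gcd ⟨α, rfl⟩ h1))
      (Nat.dvd_gcd (eig2 h₂ m₂) ⟨β, mul_comm β α⟩)
  · refine hg h₂ p₂ h₁ p₁ s₂ s₁ ?_
    have h1 : α ∣ finrank K (LinearMap.range (toEnd K g U N)) := by
      refine hJd _ ?_
      rintro y hy _ ⟨v, rfl⟩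
      refine ⟨⁅y, v⁆, ?_⟩
      show ⁅N, ⁅y, v⁆⁆ = ⁅y, ⁅N, v⁆⁆
      rw [← hNf, ← hNf, ← hcu y hy _ m]
    rw [← hαβ]
    exact Nat.mul_dvd_mul (Nat.dvd_gcd (eig2 h₂ m₂) (Nat.dvd_gcd ⟨β, rfl⟩ h1))
      (Nat.dvd_gcd (eig1 h₁ m₁) ⟨α, mul_comm α β⟩)

end Pool.Agent.RM
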