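import Pool.Agent.Lib_helper54.SJ.Dims

/-! Lower bound for the rank of a sum of two commuting operators of a tensor product. -/

set_option autoImplicit false
set_option linter.unusedSectionVars false

namespace Pool.Agent.RM

open Module Pool.Agent.SJ

variable {K V A B : Type*} [Field K] [AddCommGroup V] [Module K V]
  [Ring A] [Algebra K A] [Module A V] [IsScalarTower K A V]
  [Ring B] [Algebra K B] [Module B V] [IsScalarTower K B V] [SMulCommClass B A V]

/-- An operator commuting with A which preserves every simple submodule is a scalar. -/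
theorem scalar_of_simples [IsAlgClosed K] [FiniteDimensional K V] [Nontrivial V]
    (hirr : ∀ W : Submodule K V, (∀ a : A, ∀ w ∈ W, a • w ∈ W) → (∀ b : B, ∀ w ∈ W, b • w ∈ W) →
      W = ⊥ ∨ W = ⊤) (f : V →ₗ[A] V)
    (hf : ∀ N : Submodule A V, IsSimpleModule A N → ∀ n ∈ N, f n ∈ N) :
    ∃ c : K, ∀ v : V, f v = c • v := by
  have hAr : IsArtinian A V := isArtinian_of_tower K inferInstance
  obtain ⟨N, hN⟩ := IsAtomic.exists_atom (Submodule A V)
  have hNs : IsSimpleModule A N := isSimpleModule_iff_isAtom.mpr hN
  have hT := iso_top (A := A) (B := B) hirr N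
  have hfin : ∀ M : Submodule A V, Module.Finite K M := fun M =>
    Module.Finite.of_injective (M.subtype.restrictScalars K) M.subtype_injective
  -- the scalar on a simple submodule
  have hsc : ∀ M : Submodule A V, IsSimpleModule A M → ∃ c : K, ∀ n ∈ M, f n = c • n := by
    intro M hM
    have := hfin M
    let φ : M →ₗ[A] M := (f.comp M.subtype).codRestrict M fun n => hf M hM n n.2
    obtain ⟨c, hc⟩ := schur_simple (K := K) φ
    exact ⟨c, fun n hn => congrArg Subtype.val (hc ⟨n, hn⟩)⟩
  obtain ⟨c, hc⟩ := hsc N hNs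
  refine ⟨c, fun v => ?_⟩
  -- the eigenspace
  let E : Submodule A V :=
    { carrier := {v | f v = c • v}
      add_mem' := fun {a b} ha hb => by
        rw [Set.mem_setOf_eq] at ha hb ⊢
        rw [map_add, ha, hb, smul_add]
      zero_mem' := by rw [Set.mem_setOf_eq, map_zero, smul_zero]
      smul_mem' := fun a x hx => by
        rw [Set.mem_setOf_eq] at hx ⊢
        rw [map_smul, hx]
        exact (smul_algebra_smul_comm c a x) }
  have hE : isotypicComponent A V N ≤ E := by
    refine sSup_le fun M hM => ?_
    obtain ⟨e⟩ := hM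
    have hMs : IsSimpleModule A M := IsSimpleModule.congr e
    by_cases hMN : M ≤ N
    · intro x hx
      exact hc x (hMN hx)
    · obtain ⟨c', hc'⟩ := hsc M hMs
      have hdis : ∀ x ∈ M, x ∈ N → x = 0 := by
        have hMa : IsAtom M := isSimpleModule_iff_isAtom.mp hMs
        have h1 : M ⊓ N = ⊥ := by
          rcases (hMa.le_iff.mp (inf_le_left : M ⊓ N ≤ M)) with h | h
          · exact h
          · exact absurd (inf_eq_left.mp h) hMN
        intro x hx hx'
        have : x ∈ M ⊓ N := ⟨hx, hx'⟩
        rw [h1] at this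
        simpa using this
      -- the diagonal
      let δ : M →ₗ[A] V := M.subtype + (N.subtype.comp e.toLinearMap)
      have hδ : ∀ m : M, δ m = (m : V) + (e m : V) := fun m => rfl
      have hδi : Function.Injective δ := by
        rw [← LinearMap.ker_eq_bot, LinearMap.ker_eq_bot']
        intro m hm
        rw [hδ] at hm
        have h1 : (m : V) = -(e m : V) := eq_neg_of_add_eq_zero_left hm
        have h2 : (m : V) = 0 := hdis m m.2 (by rw [h1]; exact N.neg_mem (e m).2)
        exact Subtype.ext h2
      have hDs : IsSimpleModule A (LinearMap.range δ) :=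
        IsSimpleModule.congr (LinearEquiv.ofInjective δ hδi).symm
      intro x hx
      show f x = c • x
      by_cases hx0 : x = 0
      · rw [hx0, map_zero, smul_zero]
      have h1 := hf _ hDs (δ ⟨x, hx⟩) ⟨_, rfl⟩
      obtain ⟨y, hy⟩ := h1
      rw [hδ, hδ, map_add, hc' x hx, hc _ (e ⟨x, hx⟩).2] at hy
      -- y = c' x and e y = c e x
      have h2 : (y : V) - c' • x = c • (e ⟨x, hx⟩ : V) - (e y : V) := by
        rw [sub_eq_sub_iff_add_eq_add]
        rw [hy]
        abel
      have h3 : (y : V) - c' • x = 0 := by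
        refine hdis _ (M.sub_mem y.2 ?_) ?_
        · exact M.smul_of_tower_mem c' hx
        · rw [h2]
          exact N.sub_mem (N.smul_of_tower_mem c (e ⟨x, hx⟩).2) (e y).2
      have h4 : y = c' • (⟨x, hx⟩ : M) := Subtype.ext (sub_eq_zero.mp h3)
      rw [h3] at h2
      have h5 : (e y : V) = c • (e ⟨x, hx⟩ : V) := (sub_eq_zero.mp h2.symm).symm
      have h6 : e y = c' • e ⟨x, hx⟩ := by
        rw [h4]
        exact (e.toLinearMap.restrictScalars K).map_smul c' _
      rw [h6] at h5
      have h7 : (c' - c) • (e ⟨x, hx⟩ : V) = 0 := by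
        rw [sub_smul, ← h5]
        exact sub_self _
      have h8 : (e ⟨x, hx⟩ : V) ≠ 0 := by
        intro h
        have h9 : e ⟨x, hx⟩ = 0 := Subtype.ext h
        have h10 := e.injective (h9.trans (map_zero e).symm)
        exact hx0 (congrArg Subtype.val h10)
      have h9 := (smul_eq_zero.mp h7).resolve_right h8
      rw [hc' x hx, sub_eq_zero.mp h9]
  have h1 : v ∈ E := hE (by rw [hT]; trivial)
  exact h1

/-- If y commutes with A and is not a scalar, then x + y has rank at least the dimension of the
simple A-modules for every x in A. -/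
theorem rank_lb [IsAlgClosed K] [FiniteDimensional K V] [Nontrivial V]
    (hirr : ∀ W : Submodule K V, (∀ a : A, ∀ w ∈ W, a • w ∈ W) → (∀ b : B, ∀ w ∈ W, b • w ∈ W) →
      W = ⊥ ∨ W = ⊤) {α : ℕ} (hα : ∀ W : Submodule A V, α ∣ finrank K W)
    (y : Module.End K V) (hy : ∀ (a : A) (v : V), y (a • v) = a • y v)
    (hns : ¬ ∃ c : K, ∀ v : V, y v = c • v) (x : A) (f : Module.End K V)
    (hf : ∀ v : V, f v = x • v + y v) :
    α ≤ finrank K (LinearMap.range f) := by
  let φ : V →ₗ[A] V := { toFun := y, map_add' := y.map_add, map_smul' := hy }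
  obtain ⟨N, hN, n, hn, hnN⟩ : ∃ N : Submodule A V, IsSimpleModule A N ∧ ∃ n ∈ N, y n ∉ N := by
    by_contra hne
    push Not at hne
    exact hns (scalar_of_simples hirr φ hne)
  have hnt : Nontrivial N := IsSimpleModule.nontrivial A N
  have hfN : Module.Finite K N :=
    Module.Finite.of_injective (N.subtype.restrictScalars K) N.subtype_injective
  have hpos : 0 < finrank K N := Module.finrank_pos
  have h1 : α ≤ finrank K N := Nat.le_of_dvd hpos (hα N)
  refine h1.trans ?_
  let δ : N →ₗ[K] LinearMap.range f :=
    (f.comp (N.subtype.restrictScalars K)).codRestrict (LinearMap.range f) fun v => ⟨_, rfl⟩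
  refine LinearMap.finrank_le_finrank_of_injective (f := δ) ?_
  rw [← LinearMap.ker_eq_bot, LinearMap.ker_eq_bot']
  intro m hm
  have h2 : f (m : V) = 0 := congrArg Subtype.val hm
  rw [hf] at h2
  by_contra hm0
  -- the submodule of the elements m of N with y m in N
  let M : Submodule A N := (N.comap φ).comap N.subtype
  have hM : M = ⊤ := by
    refine (eq_bot_or_eq_top M).resolve_left fun h => hm0 ?_
    have h3 : m ∈ M := by
      show y m ∈ N
      have h4 : y (m : V) = -(x • (m : V)) := (neg_eq_of_add_eq_zero_right h2).symm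
      rw [h4]
      exact N.neg_mem (N.smul_mem x m.2)
    rw [h] at h3
    simpa using h3
  have h5 : (⟨n, hn⟩ : N) ∈ M := by rw [hM]; trivial
  exact hnN h5

end Pool.Agent.RM
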