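import Pool.Agent.Lib_helper54.RM.Tensor
import Pool.Agent.Lib_helper54.RM.RankLb
import Pool.Agent.Lib_helper54.SJ.Dich

/-! The dichotomy for a diagonalisable element of the normaliser when the image is not simple, with
the multiplicities of a tensor product. -/

set_option autoImplicit false
set_option linter.unusedSectionVars false

namespace Pool.Agent.RM

open Module Pool.Agent.SJ

section generic

variable {K V A B : Type*} [Field K] [AddCommGroup V] [Module K V]
  [Ring A] [Algebra K A] [Module A V] [IsScalarTower K A V]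
  [Ring B] [Algebra K B] [Module B V] [IsScalarTower K B V] [SMulCommClass B A V]

/-- The dimensions of the simple modules of two commuting algebras acting irreducibly. -/
theorem dims2 [IsAlgClosed K] [DecidableEq K] [FiniteDimensional K V] [Nontrivial V]
    (hirr : ∀ W : Submodule K V, (∀ a : A, ∀ w ∈ W, a • w ∈ W) → (∀ b : B, ∀ w ∈ W, b • w ∈ W) →
      W = ⊥ ∨ W = ⊤) :
    ∃ α β : ℕ, 0 < α ∧ 0 < β ∧ α * β = finrank K V ∧
      (∀ W : Submodule A V, α ∣ finrank K W) ∧ (∀ W : Submodule B V, β ∣ finrank K W) ∧
      (α = 1 → ∀ a : A, ∃ c : K, ∀ v : V, a • v = c • v) ∧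
      (β = 1 → ∀ b : B, ∃ c : K, ∀ v : V, b • v = c • v) ∧
      sSup {m : Submodule A V | IsSimpleModule A m} = ⊤ ∧
      sSup {m : Submodule B V | IsSimpleModule B m} = ⊤ ∧
      (∃ W : Submodule B V, finrank K W = β) ∧
      ∀ s : V ≃ₗ[K] V, (∀ a : A, ∃ a' : A, ∀ v, s (a • v) = a' • s v) →
        (∀ a : A, ∃ a' : A, ∀ v, a • s v = s (a' • v)) → Diag (s : Module.End K V) →
        ∃ (x : Fin α → K) (y : Fin β → K), ∀ ζ : K,
          finrank K (Module.End.eigenspace (s : Module.End K V) ζ) =
            (Finset.univ.filter fun p : Fin α × Fin β => x p.1 * y p.2 = ζ).card := by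
  classical
  have hSC : SMulCommClass A B V := SMulCommClass.symm B A V
  have hAr : IsArtinian A V := isArtinian_of_tower K inferInstance
  have hBr : IsArtinian B V := isArtinian_of_tower K inferInstance
  obtain ⟨N, hN⟩ := IsAtomic.exists_atom (Submodule A V)
  have hNs : IsSimpleModule A N := isSimpleModule_iff_isAtom.mpr hN
  have hT := iso_top (A := A) (B := B) hirr N
  obtain ⟨h1, h2, h3⟩ := Pool.Agent.GS.iso_dvd (K := K) N hT
  -- V = N^m
  have hI := IsIsotypicOfType.of_isotypicComponent_eq_top hT
  have hss : IsSemisimpleModule A V := by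
    refine IsSemisimpleModule.of_sSup_simples_eq_top (eq_top_iff.mpr ?_)
    rw [← hT]
    refine sSup_le_sSup fun m hm => ?_
    obtain ⟨e⟩ := hm
    exact IsSimpleModule.congr e
  have hfV : Module.Finite A V := Module.Finite.of_restrictScalars_finite K A V
  have hfN : Module.Finite K N :=
    Module.Finite.of_injective (N.subtype.restrictScalars K) N.subtype_injective
  obtain ⟨m, ⟨e⟩⟩ := hI.linearEquiv_fun
  have hd : finrank K V = m * finrank K N := by
    rw [(e.restrictScalars K).finrank_eq, finrank_pi_fintype]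
    simp
  -- the homomorphisms
  have hnt : Nontrivial N := IsSimpleModule.nontrivial A N
  obtain ⟨n, hn⟩ := exists_ne (0 : N)
  let ev : (N →ₗ[A] V) →ₗ[K] V :=
    { toFun := fun f => f n
      map_add' := fun f g => rfl
      map_smul' := fun c f => rfl }
  have hevi : Function.Injective ev := by
    rw [← LinearMap.ker_eq_bot, LinearMap.ker_eq_bot']
    intro f hf
    exact ker_of_simple f hn hf
  have hfE : Module.Finite K (N →ₗ[A] V) := Module.Finite.of_injective ev hevi
  have hE : finrank K (N →ₗ[A] V) ≤ m := by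
    have hs : ∀ (f : N →ₗ[A] V) (i : Fin m), ∃ c : K, ∀ x : N, e (f x) i = c • x := by
      intro f i
      let φ : N →ₗ[A] N := (LinearMap.proj i).comp (e.toLinearMap.comp f)
      obtain ⟨c, hc'⟩ := schur_simple (K := K) φ
      exact ⟨c, hc'⟩
    choose c hc' using hs
    have huniq : ∀ a b : K, a • n = b • n → a = b := by
      intro a b hab
      have h4 : (a - b) • n = 0 := by rw [sub_smul, hab, sub_self]
      exact sub_eq_zero.mp ((smul_eq_zero.mp h4).resolve_right hn)
    have hadd : ∀ f g, c (f + g) = c f + c g := by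
      intro f g
      funext i
      apply huniq
      rw [Pi.add_apply, add_smul, ← hc', ← hc', ← hc', LinearMap.add_apply, map_add,
        Pi.add_apply]
    have hsm : ∀ (a : K) f, c (a • f) = a • c f := by
      intro a f
      funext i
      apply huniq
      have h5 := congrFun ((e.restrictScalars K).map_smul a (f n)) i
      have h6 : e ((a • f) n) i = a • e (f n) i := h5
      rw [Pi.smul_apply, smul_eq_mul, mul_smul, ← hc', ← hc', h6]
    let r : (N →ₗ[A] V) →ₗ[K] (Fin m → K) :=
      { toFun := c
        map_add' := hadd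
        map_smul' := hsm }
    have hr : Function.Injective r := by
      rw [← LinearMap.ker_eq_bot, LinearMap.ker_eq_bot']
      intro f hf
      refine ker_of_simple f hn ?_
      apply e.injective
      rw [map_zero]
      funext i
      have h4 : c f i = 0 := congrFun hf i
      rw [hc' f i n, h4, zero_smul]
      rfl
    have := LinearMap.finrank_le_finrank_of_injective hr
    rwa [finrank_fin_fun] at this
  -- composition with elements of B
  let bf : B → (N →ₗ[A] V) → (N →ₗ[A] V) := fun b f => (bmap A b).comp f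
  let W' : Submodule B V :=
    { LinearMap.range ev with
      smul_mem' := by
        rintro b _ ⟨f, rfl⟩
        exact ⟨bf b f, rfl⟩ }
  have hW'0 : W' ≠ ⊥ := by
    intro h
    have h4 : (n : V) ∈ W' := ⟨N.subtype, rfl⟩
    rw [h] at h4
    exact hn (Subtype.ext (by simpa using h4))
  obtain ⟨N', hN', hle⟩ := (IsAtomic.eq_bot_or_exists_atom_le W').resolve_left hW'0
  have hNs' : IsSimpleModule B N' := isSimpleModule_iff_isAtom.mpr hN'
  have hT' := iso_top (A := B) (B := A) (fun W h1 h2 => hirr W h2 h1) N'
  obtain ⟨k1, k2, k3⟩ := Pool.Agent.GS.iso_dvd (K := K) N' hT'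
  have hfN' : Module.Finite K N' :=
    Module.Finite.of_injective (N'.subtype.restrictScalars K) N'.subtype_injective
  -- the upper bound
  have hup : finrank K N' ≤ m := by
    have h4 : finrank K N' ≤ finrank K (LinearMap.range ev) := by
      have h5 : N'.restrictScalars K ≤ LinearMap.range ev := fun v hv => hle hv
      exact Submodule.finrank_mono h5
    rw [LinearMap.finrank_range_of_inj hevi] at h4
    exact h4.trans hE
  -- the lower bound
  have hlo : finrank K V ≤ finrank K N' * finrank K N := by
    let M : Submodule K (N →ₗ[A] V) := (N'.restrictScalars K).comap ev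
    have hM : finrank K M ≤ finrank K N' := by
      let r : M →ₗ[K] N' :=
        { toFun := fun f => ⟨f.1 n, f.2⟩
          map_add' := fun f g => rfl
          map_smul' := fun c f => rfl }
      refine LinearMap.finrank_le_finrank_of_injective (f := r) ?_
      rw [← LinearMap.ker_eq_bot, LinearMap.ker_eq_bot']
      intro f hf
      exact Subtype.ext (ker_of_simple f.1 hn (congrArg Subtype.val hf))
    let bs := Module.finBasis K M
    let S : (Fin (finrank K M) → N) →ₗ[K] V :=
      ∑ i, ((bs i).1.restrictScalars K).comp (LinearMap.proj i)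
    have hSa : ∀ x, S x = ∑ i, (bs i).1 (x i) := by
      intro x
      simp only [S, LinearMap.sum_apply, LinearMap.comp_apply, LinearMap.proj_apply,
        LinearMap.coe_restrictScalars]
    have hS : ∀ f ∈ M, ∀ x : N, f x ∈ LinearMap.range S := by
      intro f hf x
      refine ⟨fun i => bs.repr ⟨f, hf⟩ i • x, ?_⟩
      have h5 : (∑ i, bs.repr ⟨f, hf⟩ i • (bs i).1) x = f x := by
        have h6 := bs.sum_repr ⟨f, hf⟩
        have h7 := congrArg (fun g : M => (g.1 : N →ₗ[A] V) x) h6
        simp only [Submodule.coe_sum, Submodule.coe_smul] at h7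
        exact h7
      rw [← h5]
      refine (hSa _).trans ?_
      rw [LinearMap.sum_apply]
      refine Finset.sum_congr rfl fun i _ => ?_
      exact ((bs i).1.restrictScalars K).map_smul _ x
    have hSt : LinearMap.range S = ⊤ := by
      refine (hirr _ ?_ ?_).resolve_left ?_
      · rintro a _ ⟨x, rfl⟩
        refine ⟨fun i => a • x i, ?_⟩
        rw [hSa, hSa, Finset.smul_sum]
        exact Finset.sum_congr rfl fun i _ => map_smul _ _ _
      · rintro b _ ⟨x, rfl⟩
        rw [hSa, Finset.smul_sum]
        refine Submodule.sum_mem _ fun i _ => ?_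
        have hbf : bf b (bs i).1 ∈ M := by
          show b • ((bs i).1 n) ∈ N'
          exact N'.smul_mem b (bs i).2
        exact hS _ hbf (x i)
      · intro h
        have hnt' : Nontrivial N' := IsSimpleModule.nontrivial B N'
        obtain ⟨w, hw⟩ := exists_ne (0 : N')
        obtain ⟨f, hf⟩ := hle w.2
        have hfM' : f ∈ M := by
          show f n ∈ N'
          have : f n = w := hf
          rw [this]; exact w.2
        have h5 := hS f hfM' n
        rw [h, Submodule.mem_bot] at h5
        have h6 : f n = w := hf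
        rw [h5] at h6
        exact hw (Subtype.ext h6.symm)
    have h8 := LinearMap.finrank_range_le S
    rw [hSt, finrank_top, finrank_pi_fintype, Finset.sum_const, Finset.card_univ,
      Fintype.card_fin, smul_eq_mul] at h8
    exact h8.trans (Nat.mul_le_mul_right _ hM)
  have hm : finrank K N' = m := by
    rw [hd] at hlo
    exact le_antisymm hup (Nat.le_of_mul_le_mul_right hlo h1)
  refine ⟨finrank K N, finrank K N', h1, k1, ?_, h2, k2, h3, k3, sSup_simple N hT,
    sSup_simple N' hT', ⟨N', rfl⟩, ?_⟩
  · rw [hd, mul_comm, hm]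
  · intro s hs hs' hD
    rw [hm]
    exact tensor_form N hT hd hE s hs hs' hD

end generic

section main

open LieModule

attribute [local instance 100] LieRing.ofAssociativeRing

variable {K : Type*} [Field K] [CharZero K] [IsAlgClosed K] {g : Type*} [LieRing g] [LieAlgebra K g]
  {U : Type*} [AddCommGroup U] [Module K U] [FiniteDimensional K U]
  [LieRingModule g U] [LieModule K g U]

theorem dichotomy2 [DecidableEq K] [LieModule.IsIrreducible K g U] (hnot : ¬ Pool.Agent.OU.PSimple K g U) (h : g)
    (hh : ∀ v : U, ⁅h, ⁅h, v⁆⁆ = (1/4 : K) • v)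
    (hns : ¬ ∃ c : K, ∀ v : U, ⁅h, v⁆ = c • v) {a b : ℕ}
    (ha : finrank K (Module.End.eigenspace (LieModule.toEnd K g U h) (1/2)) = a)
    (hb : finrank K (Module.End.eigenspace (LieModule.toEnd K g U h) (-(1/2))) = b) :
    ∃ α β : ℕ, 2 ≤ α ∧ 2 ≤ β ∧ α * β = finrank K U ∧ β ∣ a ∧
      (∀ (x : g) (c : K), (¬ ∃ c : K, ∀ v : U, ⁅x, v⁆ = c • v) →
        α ≤ finrank K (LinearMap.range (toEnd K g U x - c • (1 : Module.End K U))) ∨
        β ≤ finrank K (LinearMap.range (toEnd K g U x - c • (1 : Module.End K U)))) ∧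
      ∀ (s : U ≃ₗ[K] U), (∀ x : g, ∃ y : g, ∀ v : U, s ⁅x, v⁆ = ⁅y, s v⁆) →
        Diag (s : Module.End K U) →
        (α ∣ β ∧ a * b ≤ finrank K (LinearMap.range ((s : Module.End K U) - 1)) * finrank K U) ∨
        ∃ (x : Fin α → K) (y : Fin β → K), ∀ ζ : K,
          finrank K (Module.End.eigenspace (s : Module.End K U) ζ) =
            (Finset.univ.filter fun p : Fin α × Fin β => x p.1 * y p.2 = ζ).card := by
  have hnt : Nontrivial U := nontrivial_of_isIrreducible K g U
  have hd0 : (finrank K U : K) ≠ 0 := Nat.cast_ne_zero.mpr Module.finrank_pos.ne'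
  obtain ⟨hab, htr2⟩ := Pool.Agent.OU.sign_eq (K := K) (V := U) h hh
  rw [ha, hb] at hab htr2
  -- the traceless part
  obtain ⟨κ, hκ⟩ : ∃ κ, κ = (finrank K U : K)⁻¹ * LinearMap.trace K U (toEnd K g U h) := ⟨_, rfl⟩
  obtain ⟨T, hTdef⟩ : ∃ T, T = toEnd K g U h - κ • (1 : Module.End K U) := ⟨_, rfl⟩
  have hTL : T ∈ LE K g U := (mem_LE U).mpr ⟨h, by rw [hTdef, hκ]⟩
  have hHT : toEnd K g U h = κ • (1 : Module.End K U) + T := by rw [hTdef]; abel
  have hH2 : toEnd K g U h * toEnd K g U h = (1/4 : K) • (1 : Module.End K U) :=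
    LinearMap.ext fun v => hh v
  have hsq : (κ • (1 : Module.End K U) + T) * (κ • (1 : Module.End K U) + T) =
      (1/4 : K) • (1 : Module.End K U) := by rw [← hHT, hH2]
  obtain ⟨htr0, hirr, J, C, hJL, hCL, hTJ, hC0, hdec, hcm, hgen, hJi, hCi, hcent, hor, hperf⟩ :=
    split U hnot T hTL hsq
  -- the algebras
  let A : Subalgebra K (Module.End K U) := Algebra.adjoin K (J : Set (Module.End K U))
  let B : Subalgebra K (Module.End K U) := Algebra.adjoin K (C : Set (Module.End K U))
  have hAB : ∀ x ∈ A, ∀ y ∈ B, x * y = y * x := adj_comm hcm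
  have hSC : SMulCommClass B A U := ⟨fun y x v => by
    have := LinearMap.congr_fun (hAB x.1 x.2 y.1 y.2) v
    exact this.symm⟩
  have hirr' : ∀ W : Submodule K U, (∀ x : A, ∀ w ∈ W, x • w ∈ W) →
      (∀ y : B, ∀ w ∈ W, y • w ∈ W) → W = ⊥ ∨ W = ⊤ := by
    intro W h1 h2
    refine hirr W fun z hz w hw => ?_
    obtain ⟨x, hx, y, hy, rfl⟩ := hdec z hz
    exact W.add_mem (h1 ⟨x, Algebra.subset_adjoin hx⟩ w hw) (h2 ⟨y, Algebra.subset_adjoin hy⟩ w hw)
  obtain ⟨α, β, hα0, hβ0, hαβ, hAd, hBd, hα1, hβ1, hssA, hssB, ⟨W₀, hW₀⟩, htens⟩ :=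
    dims2 (K := K) (V := U) (A := A) (B := B) hirr'
  -- stable subspaces
  have hAst : ∀ W : Submodule K U, (∀ x ∈ J, ∀ w ∈ W, x w ∈ W) → α ∣ finrank K W := by
    intro W hW
    have h1 := adj_stable (K := K) (S := (J : Set (Module.End K U))) hW
    exact hAd { W with smul_mem' := fun x w hw => h1 x.1 x.2 w hw }
  have hBst : ∀ W : Submodule K U, (∀ x ∈ C, ∀ w ∈ W, x w ∈ W) → β ∣ finrank K W := by
    intro W hW
    have h1 := adj_stable (K := K) (S := (C : Set (Module.End K U))) hW
    exact hBd { W with smul_mem' := fun x w hw => h1 x.1 x.2 w hw }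
  have hsc0 : ∀ x ∈ LE K g U, (∃ c : K, ∀ v : U, x v = c • v) → x = 0 := by
    rintro x hx ⟨c, hc⟩
    have h1 : x = c • (1 : Module.End K U) := LinearMap.ext fun v => hc v
    have h2 := htr0 x hx
    rw [h1, map_smul, LinearMap.trace_one, smul_eq_mul] at h2
    rw [h1, (mul_eq_zero.mp h2).resolve_right hd0, zero_smul]
  have hT0 : T ≠ 0 := by
    intro h0
    apply hns
    refine ⟨κ, fun v => ?_⟩
    have := LinearMap.congr_fun hHT v
    rw [h0, add_zero] at this
    exact this
  have hα2 : 2 ≤ α := by
    by_contra hlt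
    have h1 : α = 1 := by omega
    apply hT0
    obtain ⟨c, hc⟩ := hα1 h1 ⟨T, Algebra.subset_adjoin hTJ⟩
    exact hsc0 T hTL ⟨c, hc⟩
  have hβ2 : 2 ≤ β := by
    by_contra hlt
    have h1 : β = 1 := by omega
    apply hC0
    rw [eq_bot_iff]
    intro y hy
    obtain ⟨c, hc⟩ := hβ1 h1 ⟨y, Algebra.subset_adjoin hy⟩
    exact hsc0 y (hCL hy) ⟨c, hc⟩
  refine ⟨α, β, hα2, hβ2, hαβ, ?_, ?_, ?_⟩
  · -- β divides a
    rw [← ha]
    refine hBst _ fun y hy w hw => ?_
    rw [Module.End.mem_eigenspace_iff, hHT] at hw ⊢
    have h1 := LinearMap.congr_fun (hcm T hTJ y hy) w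
    rw [Module.End.mul_apply, Module.End.mul_apply] at h1
    rw [LinearMap.add_apply, LinearMap.smul_apply, Module.End.one_apply] at hw ⊢
    rw [h1, ← map_smul, ← map_add, hw, map_smul]
  · -- the rank of an element
    intro x c hx
    obtain ⟨e, he⟩ : ∃ e : K, e = (finrank K U : K)⁻¹ * LinearMap.trace K U (toEnd K g U x) :=
      ⟨_, rfl⟩
    obtain ⟨xJ, hxJ, yC, hyC, hxy⟩ := hdec (toEnd K g U x - e • (1 : Module.End K U))
      ((mem_LE U).mpr ⟨x, by rw [he]⟩)
    have hY : ∀ v : U, (toEnd K g U x - c • (1 : Module.End K U)) v =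
        xJ v + yC v + (e - c) • v := by
      intro v
      have h1 := LinearMap.congr_fun hxy v
      rw [LinearMap.sub_apply, LinearMap.smul_apply, Module.End.one_apply,
        LinearMap.add_apply] at h1
      rw [LinearMap.sub_apply, LinearMap.smul_apply, Module.End.one_apply, ← h1, sub_smul]
      abel
    by_cases hyc : ∃ c' : K, ∀ v : U, yC v = c' • v
    · right
      have hSC' : SMulCommClass A B U := SMulCommClass.symm B A U
      refine rank_lb (K := K) (V := U) (A := B) (B := A) (fun W h1 h2 => hirr' W h2 h1) hBd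
        (xJ + (e - c) • (1 : Module.End K U)) ?_ ?_ ⟨yC, Algebra.subset_adjoin hyC⟩ _ ?_
      · intro y v
        have h1 := LinearMap.congr_fun (hAB xJ (Algebra.subset_adjoin hxJ) y.1 y.2) v
        have h2 : xJ ((y : Module.End K U) v) = (y : Module.End K U) (xJ v) := h1
        have h3 : ∀ w : U, y • w = (y : Module.End K U) w := fun w => rfl
        rw [h3, h3, LinearMap.add_apply, LinearMap.add_apply, LinearMap.smul_apply,
          LinearMap.smul_apply, Module.End.one_apply, Module.End.one_apply, h2, map_add, map_smul]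
      · rintro ⟨c₁, hc₁⟩
        obtain ⟨c₂, hc₂⟩ := hyc
        apply hx
        refine ⟨c₁ + c₂ + c, fun v => ?_⟩
        have h1 := hY v
        have h2 := hc₁ v
        rw [LinearMap.add_apply, LinearMap.smul_apply, Module.End.one_apply] at h2
        rw [LinearMap.sub_apply, LinearMap.smul_apply, Module.End.one_apply] at h1
        have h3 : ⁅x, v⁆ = (toEnd K g U x) v := rfl
        rw [h3, sub_eq_iff_eq_add.mp h1, hc₂ v, add_smul, add_smul, ← h2]
        abel
      · intro v
        rw [hY, LinearMap.add_apply, LinearMap.smul_apply, Module.End.one_apply]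
        have h3 : (⟨yC, Algebra.subset_adjoin hyC⟩ : B) • v = yC v := rfl
        rw [h3]
        abel
    · left
      refine rank_lb (K := K) (V := U) (A := A) (B := B) hirr' hAd
        (yC + (e - c) • (1 : Module.End K U)) ?_ ?_ ⟨xJ, Algebra.subset_adjoin hxJ⟩ _ ?_
      · intro y v
        have h1 := LinearMap.congr_fun (hAB y.1 y.2 yC (Algebra.subset_adjoin hyC)) v
        have h2 : (y : Module.End K U) (yC v) = yC ((y : Module.End K U) v) := h1
        have h3 : ∀ w : U, y • w = (y : Module.End K U) w := fun w => rfl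
        rw [h3, h3, LinearMap.add_apply, LinearMap.add_apply, LinearMap.smul_apply,
          LinearMap.smul_apply, Module.End.one_apply, Module.End.one_apply, ← h2, map_add, map_smul]
      · rintro ⟨c₁, hc₁⟩
        apply hyc
        refine ⟨c₁ - (e - c), fun v => ?_⟩
        have h2 := hc₁ v
        rw [LinearMap.add_apply, LinearMap.smul_apply, Module.End.one_apply] at h2
        rw [sub_smul (c₁) (e - c) v, ← h2]
        abel
      · intro v
        rw [hY, LinearMap.add_apply, LinearMap.smul_apply, Module.End.one_apply]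
        have h3 : (⟨xJ, Algebra.subset_adjoin hxJ⟩ : A) • v = xJ v := rfl
        rw [h3]
        abel
  · intro s hs hD
    obtain ⟨ρ, hρ⟩ : ∃ ρ, ρ = finrank K (LinearMap.range ((s : Module.End K U) - 1)) := ⟨_, rfl⟩
    rw [← hρ]
    have hsL := conj_LE s hs
    have hsL' := conj_symm_mem s _ hsL
    have hs1 : s.conj (1 : Module.End K U) = 1 := by
      ext v
      simp [LinearEquiv.conj_apply]
    -- ideals pulled back by s
    have hpull : ∀ I : Submodule K (Module.End K U), (∀ z ∈ LE K g U, ∀ x ∈ I, z * x - x * z ∈ I) →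
        s.conj T ∈ I → ∀ x ∈ J, s.conj x ∈ I := by
      intro I hI hTI
      have h1 := hgen ((I.comap (s.conj : Module.End K U →ₗ[K] Module.End K U)) ⊓ LE K g U)
        inf_le_right ?_ ⟨hTI, hTL⟩
      · intro x hx
        exact (h1 hx).1
      · rintro z hz x ⟨hx1, hx2⟩
        refine ⟨?_, ?_⟩
        · show s.conj (z * x - x * z) ∈ I
          rw [map_sub, conj_mul', conj_mul']
          exact hI _ (hsL z hz) _ hx1
        · obtain ⟨z', rfl⟩ := (mem_LE U).mp hz
          obtain ⟨x', rfl⟩ := (mem_LE U).mp hx2
          have h5 := (Pool.Agent.GS.phi (K := K) (g := g) U).range.lie_mem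
            (x := Pool.Agent.GS.phi (K := K) (g := g) U z')
            (y := Pool.Agent.GS.phi (K := K) (g := g) U x') ⟨z', rfl⟩ ⟨x', rfl⟩
          exact h5
    have hT'sq : (κ • (1 : Module.End K U) + s.conj T) * (κ • (1 : Module.End K U) + s.conj T) =
        (1/4 : K) • (1 : Module.End K U) := by
      have h1 := congrArg s.conj hsq
      rw [conj_mul', map_add, map_smul, map_smul, hs1] at h1
      exact h1
    rcases hor (s.conj T) (hsL T hTL) hT'sq with hT' | hT'
    · -- s normalises J and C
      right
      have hsJ := hpull J hJi hT'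
      have hsJ' := conj_symm_mem s _ hsJ
      have hsC' : ∀ y ∈ C, s.symm.conj y ∈ C := by
        intro y hy
        refine hcent _ (hsL' y (hCL hy)) fun x hx => ?_
        have h1 := hcm _ (hsJ x hx) y hy
        have h2 := congrArg s.symm.conj h1
        rw [conj_mul', conj_mul'] at h2
        have h3 : s.symm.conj (s.conj x) = x := by
          ext v
          simp [LinearEquiv.conj_apply]
        rw [h3] at h2
        exact h2.symm
      refine htens s ?_ ?_ hD
      · rintro ⟨x, hx⟩
        refine ⟨⟨s.conj x, adj_conj s hsJ x hx⟩, fun v => ?_⟩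
        exact (conj_apply' s x v).symm
      · rintro ⟨x, hx⟩
        refine ⟨⟨s.symm.conj x, adj_conj s.symm hsJ' x hx⟩, fun v => ?_⟩
        exact (conj_symm_apply' s x v).symm
    · -- s moves J into C
      left
      have hsJ := hpull C hCi hT'
      constructor
      · have h1 : finrank K ((W₀.restrictScalars K).map (s.symm : U →ₗ[K] U)) = β := by
          rw [← hW₀]
          exact LinearEquiv.finrank_map_eq s.symm (W₀.restrictScalars K)
        rw [← h1]
        refine hAst _ ?_
        rintro x hx _ ⟨w, hw, rfl⟩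
        refine ⟨s.conj x w, W₀.smul_mem ⟨s.conj x, Algebra.subset_adjoin (hsJ x hx)⟩ hw, ?_⟩
        simp [LinearEquiv.conj_apply]
      · -- the trace computation
        have c1 : T * s.conj T = s.conj T * T := hcm T hTJ _ hT'
        have hTT : LinearMap.trace K U (T * s.conj T) = 0 := by
          have h1 := hperf ((LinearMap.trace K U).comp (LinearMap.mulRight K (s.conj T))) ?_ T hTJ
          · simpa using h1
          · intro x hx y hy
            have k1 : y * s.conj T = s.conj T * y := hcm y hy _ hT'
            show LinearMap.trace K U ((x * y - y * x) * s.conj T) = 0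
            rw [sub_mul, map_sub, mul_assoc, k1, ← mul_assoc, LinearMap.trace_mul_comm K (x * s.conj T) y,
              ← mul_assoc, sub_self]
        have hκ' : κ * (2 * finrank K U) = (a : K) - b := by
          rw [← htr2, hκ]
          field_simp
        rw [hρ]
        exact trace_bound s κ T hsq c1 (htr0 T hTL) hTT hκ' hab

end main

end Pool.Agent.RM
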