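import Pool.Agent.Lib_helper54.RM.ClassLift
import Pool.Agent.Lib_helper54.RM.Dich2

/-! Elements of the normaliser and clusters of their eigenvalues with respect to a valuation: small
rank, simple image, reflections, pairs. -/

set_option autoImplicit false

namespace Pool.Agent.RM

open Polynomial IsLocalRing Module Pool.Agent.SJ LieModule

attribute [local instance 100] LieRing.ofAssociativeRing

section norm

variable {K : Type*} [Field K] {g : Type*} [LieRing g] [LieAlgebra K g]
  {U : Type*} [AddCommGroup U] [Module K U] [LieRingModule g U] [LieModule K g U]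

/-- Scaling of an element of the normaliser. -/
theorem norm_smul {s : U ≃ₗ[K] U} (hs : ∀ y : g, ∃ z : g, ∀ v : U, s ⁅y, v⁆ = ⁅z, s v⁆) {c : K}
    (hc : c ≠ 0) : ∃ s' : U ≃ₗ[K] U, (∀ y : g, ∃ z : g, ∀ v : U, s' ⁅y, v⁆ = ⁅z, s' v⁆) ∧
      (∀ v, s' v = c • s v) ∧ ∀ ζ : K, Module.End.eigenspace (s' : Module.End K U) (c * ζ) =
        Module.End.eigenspace (s : Module.End K U) ζ := by
  let s' : U ≃ₗ[K] U := s.trans (LinearEquiv.smulOfUnit (Units.mk0 c hc))
  have hs' : ∀ v, s' v = c • s v := fun v => rfl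
  refine ⟨s', fun y => ?_, hs', fun ζ => ?_⟩
  · obtain ⟨z, hz⟩ := hs y
    exact ⟨z, fun v => by rw [hs', hs', lie_smul, hz]⟩
  · ext v
    rw [Module.End.mem_eigenspace_iff, Module.End.mem_eigenspace_iff]
    show s' v = _ ↔ s v = _
    rw [hs', mul_smul]
    exact ⟨fun h => smul_right_injective U hc h, fun h => by rw [h]⟩

theorem classSize_pos [FiniteDimensional K U] {O : ValuationSubring K} {γ : U ≃ₗ[K] U} {a : K}
    (ha : a ∈ (γ : Module.End K U).charpoly.roots) : 0 < classSize O γ a := by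
  classical
  rw [classSize, Multiset.card_pos_iff_exists_mem]
  refine ⟨a, Multiset.mem_filter.mpr ⟨ha, ?_⟩⟩
  rw [sub_self, map_zero, Valuation.pos_iff]
  exact root_ne_zero γ a ha

variable [IsAlgClosed K] [FiniteDimensional K U]

/-- An element s of the normaliser, whose eigenvalues τ a correspond to the classes of the
eigenvalues a of γ, and whose multiplicities are the sizes of the classes. -/
theorem class_norm (O : ValuationSubring K) (γ : U ≃ₗ[K] U)
    (hγ : ∀ y : g, ∃ z : g, ∀ v : U, γ ⁅y, v⁆ = ⁅z, γ v⁆) :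
    ∃ (s : U ≃ₗ[K] U) (τ : K → K), (∀ y : g, ∃ z : g, ∀ v : U, s ⁅y, v⁆ = ⁅z, s v⁆) ∧
      (∀ a ∈ (γ : Module.End K U).charpoly.roots, τ a ≠ 0 ∧
        finrank K (Module.End.eigenspace (s : Module.End K U) (τ a)) = classSize O γ a ∧
        ∀ b ∈ (γ : Module.End K U).charpoly.roots,
          (τ b = τ a ↔ O.valuation (b - a) < O.valuation a)) ∧
      Diag (s : Module.End K U) ∧
      (∀ z : K, 0 < finrank K (Module.End.eigenspace (s : Module.End K U) z) →
        ∃ a ∈ (γ : Module.End K U).charpoly.roots, τ a = z) ∧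
      ∀ a b : K, a ≠ 0 → b ≠ 0 → τ (a * b) = τ a * τ b := by
  classical
  obtain ⟨τ, s, hτ0, hs, hτ, hD, hz⟩ := class_lift O γ (toEnd K g U).range.toSubmodule (by
    rintro _ ⟨x, rfl⟩
    obtain ⟨y, hy⟩ := hγ x
    refine ⟨y, ?_⟩
    ext v
    obtain ⟨w, rfl⟩ := γ.surjective v
    show _ = γ.conj (toEnd K g U x) (γ w)
    rw [conj_apply']
    exact (hy w).symm)
  refine ⟨s, cv τ, ?_, fun a ha => ⟨(hτ a ha).1, (hτ a ha).2, fun b hb => ?_⟩, hD, hz, ?_⟩
  · intro y
    obtain ⟨z, hz⟩ := hs (toEnd K g U y) ⟨y, rfl⟩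
    refine ⟨z, fun v => ?_⟩
    have h3 := LinearMap.congr_fun hz (s v)
    have h4 : s.conj (toEnd K g U y) (s v) = s ⁅y, v⁆ := conj_apply' _ _ _
    rw [← h4]
    exact h3.symm
  · exact cv_eq_iff τ hτ0 (root_ne_zero γ a ha) (root_ne_zero γ b hb)
  · intro a b ha hb
    obtain ⟨u, rfl⟩ : ∃ u : Kˣ, (u : K) = a := ⟨Units.mk0 a ha, rfl⟩
    obtain ⟨v, rfl⟩ : ∃ v : Kˣ, (v : K) = b := ⟨Units.mk0 b hb, rfl⟩
    rw [← Units.val_mul, cv_eq, cv_eq, cv_eq, map_mul, Units.val_mul]

/-- A cluster of all eigenvalues but r, such that the other clusters have at most k elements. -/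
theorem clus {O : ValuationSubring K} {γ : U ≃ₗ[K] U} {c : K} {r k : ℕ}
    (hγ : ∀ y : g, ∃ z : g, ∀ v : U, γ ⁅y, v⁆ = ⁅z, γ v⁆)
    (hc : c ∈ (γ : Module.End K U).charpoly.roots) (hr : 0 < r)
    (h1 : classSize O γ c + r = finrank K U)
    (hk : ∀ b ∈ (γ : Module.End K U).charpoly.roots, O.valuation c ≤ O.valuation (b - c) →
      classSize O γ b ≤ k) :
    ∃ s : U ≃ₗ[K] U, (∀ y : g, ∃ z : g, ∀ v : U, s ⁅y, v⁆ = ⁅z, s v⁆) ∧
      Diag (s : Module.End K U) ∧
      finrank K (Module.End.eigenspace (s : Module.End K U) 1) + r = finrank K U ∧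
      (∀ ζ : K, ζ ≠ 1 → finrank K (Module.End.eigenspace (s : Module.End K U) ζ) ≤ k) ∧
      (∀ b ∈ (γ : Module.End K U).charpoly.roots, ∃ ζ : K,
        finrank K (Module.End.eigenspace (s : Module.End K U) ζ) = classSize O γ b) ∧
      (¬ ∃ e : K, ∀ v : U, s v = e • v) ∧
      finrank K (LinearMap.range ((s : Module.End K U) - 1)) = r := by
  obtain ⟨s, τ, hs, hτ, hD, hz, -⟩ := class_norm O γ hγ
  obtain ⟨hc0, hcn, hcτ⟩ := hτ c hc
  obtain ⟨s', hs', hsv, hseig⟩ := norm_smul hs (inv_ne_zero hc0)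
  have e1 : finrank K (Module.End.eigenspace (s' : Module.End K U) 1) = classSize O γ c := by
    have h3 := hseig (τ c)
    rw [inv_mul_cancel₀ hc0] at h3
    rw [h3, hcn]
  have heig : ∀ ζ : K, Module.End.eigenspace (s' : Module.End K U) ζ =
      Module.End.eigenspace (s : Module.End K U) (τ c * ζ) := by
    intro ζ
    rw [← hseig, inv_mul_cancel_left₀ hc0]
  have hrank : finrank K (LinearMap.range ((s' : Module.End K U) - 1)) = r := by
    have h2 := LinearMap.finrank_range_add_finrank_ker ((s' : Module.End K U) - 1)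
    have h3 : LinearMap.ker ((s' : Module.End K U) - 1) =
        Module.End.eigenspace (s' : Module.End K U) 1 := by
      ext v
      rw [LinearMap.mem_ker, Module.End.mem_eigenspace_iff, LinearMap.sub_apply,
        Module.End.one_apply, one_smul, sub_eq_zero]
    rw [h3, e1] at h2
    omega
  refine ⟨s', hs', ?_, by rw [e1, h1], ?_, ?_, ?_, hrank⟩
  · rw [Diag, eq_top_iff, ← (hD : _ = ⊤)]
    refine iSup_le fun μ => ?_
    rw [← hseig μ]
    exact le_iSup (fun μ => Module.End.eigenspace (s' : Module.End K U) μ) _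
  · intro ζ hζ
    rw [heig]
    rcases Nat.eq_zero_or_pos (finrank K (Module.End.eigenspace (s : Module.End K U) (τ c * ζ)))
      with h | h
    · rw [h]; exact Nat.zero_le _
    · obtain ⟨b, hb, hbz⟩ := hz _ h
      rw [← hbz, (hτ b hb).2.1]
      refine hk b hb ?_
      by_contra hlt
      have h3 := (hcτ b hb).mpr (not_le.mp hlt)
      rw [h3] at hbz
      exact hζ (mul_left_cancel₀ hc0 (by rw [mul_one]; exact hbz)).symm
  · intro b hb
    refine ⟨(τ c)⁻¹ * τ b, ?_⟩
    rw [hseig, (hτ b hb).2.1]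
  · rintro ⟨e, he⟩
    have hpos := classSize_pos (O := O) hc
    have h2 : Module.End.eigenspace (s' : Module.End K U) 1 ≠ ⊥ := by
      intro h
      rw [h, finrank_bot] at e1
      omega
    obtain ⟨v, hv, hv0⟩ := Submodule.exists_mem_ne_zero_of_ne_bot h2
    rw [Module.End.mem_eigenspace_iff, one_smul] at hv
    have h3 : e • v = v := by rw [← he v]; exact hv
    have h4 : (e - 1) • v = 0 := by rw [sub_smul, h3, one_smul, sub_self]
    have h5 : e = 1 := sub_eq_zero.mp ((smul_eq_zero.mp h4).resolve_right hv0)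
    have h6 : (s' : Module.End K U) - 1 = 0 := by
      ext w
      show s' w - w = 0
      rw [he, h5, one_smul, sub_self]
    rw [h6, LinearMap.range_zero, finrank_bot] at hrank
    omega

/-- All eigenvalues but two in one class, the two others in two other classes. -/
theorem pair_of {s : U ≃ₗ[K] U} (hD : Diag (s : Module.End K U))
    (h1 : finrank K (Module.End.eigenspace (s : Module.End K U) 1) + 2 = finrank K U)
    (hk : ∀ ζ : K, ζ ≠ 1 → finrank K (Module.End.eigenspace (s : Module.End K U) ζ) ≤ 1) :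
    ∃ (e f : K) (u v : U), u ≠ 0 ∧ v ≠ 0 ∧ s u = e • u ∧ s v = f • v ∧ e ≠ 1 ∧ f ≠ 1 ∧ e ≠ f := by
  classical
  obtain ⟨b, x, hb⟩ := exists_eigenbasis hD
  have hc := eig_count b x hb
  have h2 : (Finset.univ.filter fun i => ¬ x i = 1).card = 2 := by
    have h3 := Finset.card_filter_add_card_filter_not (s := Finset.univ) (fun i => x i = 1)
    rw [← hc 1, Finset.card_univ, Fintype.card_fin] at h3
    omega
  obtain ⟨i, j, hij, hs⟩ := Finset.card_eq_two.mp h2
  have hi : x i ≠ 1 := by
    have : i ∈ (Finset.univ.filter fun i => ¬ x i = 1) := by rw [hs]; simp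
    exact (Finset.mem_filter.mp this).2
  have hj : x j ≠ 1 := by
    have : j ∈ (Finset.univ.filter fun i => ¬ x i = 1) := by rw [hs]; simp
    exact (Finset.mem_filter.mp this).2
  refine ⟨x i, x j, b i, b j, b.ne_zero i, b.ne_zero j, hb i, hb j, hi, hj, ?_⟩
  intro h
  have h3 := hk (x i) hi
  rw [hc] at h3
  have h4 : ({i, j} : Finset _) ⊆ (Finset.univ.filter fun l => x l = x i) := by
    intro l hl
    rw [Finset.mem_insert, Finset.mem_singleton] at hl
    rw [Finset.mem_filter]
    refine ⟨Finset.mem_univ _, ?_⟩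
    rcases hl with rfl | rfl
    · rfl
    · exact h.symm
  have h5 := Finset.card_le_card h4
  rw [Finset.card_pair hij] at h5
  omega

end norm

section small

variable {K : Type*} [Field K] [IsAlgClosed K] {g : Type*} [LieRing g] [LieAlgebra K g]
  {U : Type*} [AddCommGroup U] [Module K U] [FiniteDimensional K U] [LieRingModule g U]
  [LieModule K g U]

/-- A homogeneous element of the image of g of degree different from 1. -/
theorem exists_homog [LieModule.IsIrreducible K g U] {s : U ≃ₗ[K] U}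
    (hs : ∀ y : g, ∃ z : g, ∀ v : U, s ⁅y, v⁆ = ⁅z, s v⁆) (hD : Diag (s : Module.End K U))
    (hns : ¬ ∃ e : K, ∀ v : U, s v = e • v) :
    ∃ (x : g) (μ : K), μ ≠ 1 ∧ (∃ v : U, ⁅x, v⁆ ≠ 0) ∧ ∀ v : U, s ⁅x, v⁆ = μ • ⁅x, s v⁆ := by
  classical
  by_contra hno
  push Not at hno
  have hnt : Nontrivial U := LieModule.nontrivial_of_isIrreducible K g U
  let L : Submodule K (Module.End K U) := (toEnd K g U).range.toSubmodule
  let Ad : Module.End K (Module.End K U) := (s.conj : Module.End K U →ₗ[K] Module.End K U)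
  have hAd : ∀ x, Ad x = s.conj x := fun x => rfl
  have hL : ∀ x ∈ L, Ad x ∈ L := by
    rintro _ ⟨x, rfl⟩
    obtain ⟨y, hy⟩ := hs x
    refine ⟨y, ?_⟩
    ext v
    obtain ⟨w, rfl⟩ := s.surjective v
    show _ = s.conj (toEnd K g U x) (s w)
    rw [conj_apply']
    exact (hy w).symm
  -- Ad is diagonalisable
  obtain ⟨b, x, hb⟩ := exists_eigenbasis hD
  have hx0 : ∀ i, x i ≠ 0 := by
    intro i h
    have h1 := hb i
    rw [h, zero_smul] at h1
    exact b.ne_zero i (s.map_eq_zero_iff.mp h1)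
  have hDA : Diag Ad := by
    rw [Diag, eq_top_iff]
    intro T _
    let E : Fin (finrank K U) → Fin (finrank K U) → Module.End K U := fun i j =>
      b.constr K (fun l => if l = j then b i else 0)
    have hE : ∀ i j, E i j ∈ ⨆ μ, Module.End.eigenspace Ad μ := by
      intro i j
      refine (le_iSup (fun μ => Module.End.eigenspace Ad μ) (x i * (x j)⁻¹)) ?_
      rw [Module.End.mem_eigenspace_iff, hAd]
      have h1 : s.conj (E i j) ∘ₗ (s : U →ₗ[K] U) =
          ((x i * (x j)⁻¹) • E i j) ∘ₗ (s : U →ₗ[K] U) := by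
        apply b.ext
        intro l
        rw [LinearMap.comp_apply, LinearMap.comp_apply]
        show s.conj (E i j) (s (b l)) = _
        rw [conj_apply']
        have h2 : (s : U →ₗ[K] U) (b l) = x l • b l := hb l
        rw [h2, LinearMap.smul_apply, map_smul]
        have h3 : E i j (b l) = if l = j then b i else 0 := b.constr_basis K _ _
        rw [h3]
        by_cases h : l = j
        · subst h
          rw [if_pos rfl]
          have h4 : s (b i) = x i • b i := hb i
          rw [h4, smul_smul, mul_assoc, inv_mul_cancel₀ (hx0 l), mul_one]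
        · rw [if_neg h, map_zero, smul_zero, smul_zero]
      ext v
      obtain ⟨w, rfl⟩ := s.surjective v
      exact LinearMap.congr_fun h1 w
    have h1 : T = ∑ i, ∑ j, b.repr (T (b j)) i • E i j := by
      apply b.ext
      intro l
      rw [LinearMap.sum_apply]
      conv_lhs => rw [← b.sum_repr (T (b l))]
      refine Finset.sum_congr rfl fun i _ => ?_
      rw [LinearMap.sum_apply, Finset.sum_eq_single l]
      · rw [LinearMap.smul_apply]
        have h3 : E i l (b l) = if l = l then b i else 0 := b.constr_basis K _ _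
        rw [h3, if_pos rfl]
      · intro j _ hj
        rw [LinearMap.smul_apply]
        have h3 : E i j (b l) = if l = j then b i else 0 := b.constr_basis K _ _
        rw [h3, if_neg (Ne.symm hj), smul_zero]
      · intro h
        exact absurd (Finset.mem_univ l) h
    rw [h1]
    exact Submodule.sum_mem _ fun i _ => Submodule.sum_mem _ fun j _ =>
      Submodule.smul_mem _ _ (hE i j)
  have h2 := Submodule.inf_iSup_genEigenspace (p := L) (f := Ad) hL 1
  have h3 : (⨆ μ, Ad.genEigenspace μ 1) = ⊤ := hDA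
  rw [h3, inf_top_eq] at h2
  have h4 : L ≤ Module.End.eigenspace Ad 1 := by
    rw [h2]
    refine iSup_le fun μ => ?_
    rintro X ⟨⟨y, hy⟩, hX⟩
    by_cases hμ : μ = 1
    · subst hμ
      exact hX
    · have h5 : Ad X = μ • X := Module.End.mem_eigenspace_iff.mp hX
      have h6 : X = 0 := by
        by_contra hX0
        obtain ⟨v, hv⟩ : ∃ v : U, ⁅y, v⁆ ≠ 0 := by
          by_contra h
          push Not at h
          apply hX0
          rw [← hy]
          ext v
          exact h v
        obtain ⟨w, hw⟩ := hno y μ hμ ⟨v, hv⟩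
        apply hw
        have h7 := LinearMap.congr_fun h5 (s w)
        rw [hAd, conj_apply'] at h7
        rw [← hy] at h7
        exact h7
      rw [h6]
      exact Submodule.zero_mem _
  -- s commutes with g
  have h5 : ∀ (y : g) (v : U), s ⁅y, v⁆ = ⁅y, s v⁆ := by
    intro y v
    have h6 : Ad (toEnd K g U y) = (1 : K) • toEnd K g U y :=
      Module.End.mem_eigenspace_iff.mp (h4 ⟨y, rfl⟩)
    rw [one_smul, hAd] at h6
    have h7 := LinearMap.congr_fun h6 (s v)
    rw [conj_apply'] at h7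
    exact h7
  obtain ⟨e, he⟩ := Module.End.exists_eigenvalue (s : Module.End K U)
  apply hns
  refine ⟨e, ?_⟩
  let M : LieSubmodule K g U :=
    { Module.End.eigenspace (s : Module.End K U) e with
      lie_mem := by
        intro y v hv
        have hv' : s v = e • v := Module.End.mem_eigenspace_iff.mp hv
        show ⁅y, v⁆ ∈ Module.End.eigenspace (s : Module.End K U) e
        rw [Module.End.mem_eigenspace_iff]
        show s ⁅y, v⁆ = e • ⁅y, v⁆
        rw [h5, hv', lie_smul] }
  have hM : M = ⊤ := by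
    refine (eq_bot_or_eq_top M).resolve_left fun h => ?_
    obtain ⟨v, hv, hv0⟩ := he.exists_hasEigenvector
    have h6 : v ∈ M := hv
    rw [h] at h6
    exact hv0 (by simpa using h6)
  intro v
  have h6 : v ∈ M := by rw [hM]; trivial
  exact Module.End.mem_eigenspace_iff.mp h6

/-- An element of small rank. -/
theorem small_of [LieModule.IsIrreducible K g U] {s : U ≃ₗ[K] U} {r k : ℕ}
    (hs : ∀ y : g, ∃ z : g, ∀ v : U, s ⁅y, v⁆ = ⁅z, s v⁆) (hD : Diag (s : Module.End K U))
    (hns : ¬ ∃ e : K, ∀ v : U, s v = e • v)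
    (h1 : finrank K (Module.End.eigenspace (s : Module.End K U) 1) + r = finrank K U)
    (hk : ∀ ζ : K, ζ ≠ 1 → finrank K (Module.End.eigenspace (s : Module.End K U) ζ) ≤ k) :
    ∃ x : g, (¬ ∃ c : K, ∀ v : U, ⁅x, v⁆ = c • v) ∧
      finrank K (LinearMap.range (toEnd K g U x)) ≤ r + k := by
  obtain ⟨x, μ, hμ, ⟨v₀, hv₀⟩, hx⟩ := exists_homog hs hD hns
  refine ⟨x, ?_, ?_⟩
  · rintro ⟨c, hc⟩
    have hc0 : c ≠ 0 := by
      rintro rfl
      apply hv₀
      rw [hc, zero_smul]
    have hv0 : v₀ ≠ 0 := by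
      rintro rfl
      exact hv₀ (lie_zero x)
    have h2 := hx v₀
    rw [hc, hc, map_smul, smul_smul] at h2
    have h3 : (c - μ * c) • s v₀ = 0 := by rw [sub_smul, h2, sub_self]
    have h4 : s v₀ ≠ 0 := fun h => hv0 (s.map_eq_zero_iff.mp h)
    have h5 : c - μ * c = 0 := (smul_eq_zero.mp h3).resolve_right h4
    have h6 : (1 - μ) * c = 0 := by rw [sub_mul, one_mul, h5]
    rcases mul_eq_zero.mp h6 with h7 | h7
    · exact hμ (sub_eq_zero.mp h7).symm
    · exact hc0 h7
  · let E := Module.End.eigenspace (s : Module.End K U) 1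
    obtain ⟨F, hF⟩ := Submodule.exists_isCompl E
    have h2 : finrank K F = r := by
      have := Submodule.finrank_add_eq_of_isCompl hF
      have h3 : finrank K E + r = finrank K U := h1
      omega
    have h3 : LinearMap.range (toEnd K g U x) = E.map (toEnd K g U x) ⊔ F.map (toEnd K g U x) := by
      rw [← Submodule.map_sup, hF.sup_eq_top, Submodule.map_top]
    have h4 : E.map (toEnd K g U x) ≤ Module.End.eigenspace (s : Module.End K U) μ := by
      rintro _ ⟨v, hv, rfl⟩
      have hv' : s v = (1 : K) • v := Module.End.mem_eigenspace_iff.mp hv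
      rw [one_smul] at hv'
      rw [Module.End.mem_eigenspace_iff]
      show s ⁅x, v⁆ = μ • ⁅x, v⁆
      rw [hx, hv']
    have h5 := Submodule.finrank_mono h4
    have h6 := hk μ hμ
    have h7 : finrank K (F.map (toEnd K g U x)) ≤ finrank K F := Submodule.finrank_map_le _ _
    have h8 := Submodule.finrank_add_le_finrank_add_finrank (E.map (toEnd K g U x))
      (F.map (toEnd K g U x))
    rw [h3]
    omega

end small

section simple

variable {K : Type*} [Field K] [CharZero K] [IsAlgClosed K] {g : Type*} [LieRing g] [LieAlgebra K g]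
  {U : Type*} [AddCommGroup U] [Module K U] [FiniteDimensional K U] [LieRingModule g U]
  [LieModule K g U]

/-- The image is simple. -/
theorem psimple_clus [LieModule.IsIrreducible K g U] {O : ValuationSubring K} {γ : U ≃ₗ[K] U}
    {c : K} {r k : ℕ} (hγ : ∀ y : g, ∃ z : g, ∀ v : U, γ ⁅y, v⁆ = ⁅z, γ v⁆)
    (hc : c ∈ (γ : Module.End K U).charpoly.roots) (hr0 : 0 < r)
    (h1 : classSize O γ c + r = finrank K U)
    (hk : ∀ b ∈ (γ : Module.End K U).charpoly.roots, O.valuation c ≤ O.valuation (b - c) →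
      classSize O γ b ≤ k)
    (hprim : ∀ n : ℕ, (∀ b ∈ (γ : Module.End K U).charpoly.roots, n ∣ classSize O γ b) → n = 1)
    (h : g) (hh : ∀ v : U, ⁅h, ⁅h, v⁆⁆ = (1/4 : K) • v) (hns : ¬ ∃ c : K, ∀ v : U, ⁅h, v⁆ = c • v)
    {a b : ℕ} (ha : finrank K (Module.End.eigenspace (LieModule.toEnd K g U h) (1/2)) = a)
    (hb : finrank K (Module.End.eigenspace (LieModule.toEnd K g U h) (-(1/2))) = b)
    (hab : r * finrank K U < a * b) (hr : k ^ 2 * finrank K U < (finrank K U - r) ^ 2) :
    Pool.Agent.OU.PSimple K g U := by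
  classical
  by_contra hnot
  obtain ⟨α, β, hα, hβ, hαβ, -, -, hdich⟩ := dichotomy2 hnot h hh hns ha hb
  obtain ⟨s, hs, hD, he1, hek, hmult, -, hrk⟩ := clus hγ hc hr0 h1 hk
  have key : ∀ n : ℕ, 2 ≤ n → (∀ ζ : K, n ∣ finrank K (Module.End.eigenspace (s : Module.End K U) ζ)) →
      False := by
    intro n hn h1
    have h2 := hprim n (fun y hy => by
      obtain ⟨ζ, hζ⟩ := hmult y hy
      rw [← hζ]
      exact h1 ζ)
    omega
  rcases hdich s hs hD with ⟨-, h2⟩ | ⟨x, y, hxy⟩
  · rw [hrk] at h2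
    omega
  · rcases comb x y _ hxy one_ne_zero hek with h3 | h3 | ⟨h3, h4⟩
    · exact key α hα h3
    · exact key β hβ h3
    · have h5 : finrank K (Module.End.eigenspace (s : Module.End K U) 1) = finrank K U - r := by
        omega
      rw [h5] at h3 h4
      have h6 : (finrank K U - r) * (finrank K U - r) ≤ (k * α) * (k * β) := Nat.mul_le_mul h3 h4
      have h7 : (k * α) * (k * β) = k ^ 2 * finrank K U := by rw [← hαβ]; ring
      rw [h7, ← sq] at h6
      omega

omit [CharZero K] in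
/-- A cluster of all eigenvalues but one gives a reflection in the normaliser. -/
theorem refl_clus {O : ValuationSubring K} {γ : U ≃ₗ[K] U} {c b : K}
    (hγ : ∀ y : g, ∃ z : g, ∀ v : U, γ ⁅y, v⁆ = ⁅z, γ v⁆)
    (hc : c ∈ (γ : Module.End K U).charpoly.roots)
    (h1 : classSize O γ c + 1 = finrank K U)
    (hb : b ∈ (γ : Module.End K U).charpoly.roots)
    (hcb : O.valuation (c ^ 2) ≤ O.valuation (b ^ 2 - c ^ 2)) :
    ∃ (s : U ≃ₗ[K] U) (e f : K), (∀ y : g, ∃ z : g, ∀ v : U, s ⁅y, v⁆ = ⁅z, s v⁆) ∧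
      finrank K (LinearMap.range ((s : Module.End K U) - e • (1 : Module.End K U))) = 1 ∧
      (∃ v : U, v ≠ 0 ∧ s v = f • v) ∧ e ^ 2 ≠ f ^ 2 := by
  classical
  obtain ⟨τ, s, hτ0, hs, hτ, -, -⟩ := class_lift O γ (toEnd K g U).range.toSubmodule (by
    rintro _ ⟨x, rfl⟩
    obtain ⟨y, hy⟩ := hγ x
    refine ⟨y, ?_⟩
    ext v
    obtain ⟨w, rfl⟩ := γ.surjective v
    show _ = γ.conj (toEnd K g U x) (γ w)
    rw [conj_apply']
    exact (hy w).symm)
  have hc0 := root_ne_zero γ c hc
  have hb0 := root_ne_zero γ b hb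
  refine ⟨s, cv τ c, cv τ b, ?_, ?_, ?_, ?_⟩
  · intro y
    obtain ⟨z, hz⟩ := hs (toEnd K g U y) ⟨y, rfl⟩
    refine ⟨z, fun v => ?_⟩
    have h3 := LinearMap.congr_fun hz (s v)
    have h4 : s.conj (toEnd K g U y) (s v) = s ⁅y, v⁆ := conj_apply' _ _ _
    rw [← h4]
    exact h3.symm
  · rw [finrank_range_sub, (hτ c hc).2]
    omega
  · have hpos := classSize_pos (O := O) hb
    have h2 : Module.End.eigenspace (s : Module.End K U) (cv τ b) ≠ ⊥ := by
      intro h
      have := (hτ b hb).2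
      rw [h, finrank_bot] at this
      omega
    obtain ⟨v, hv, hv0⟩ := Submodule.exists_mem_ne_zero_of_ne_bot h2
    exact ⟨v, hv0, Module.End.mem_eigenspace_iff.mp hv⟩
  · intro h
    have hsq : ∀ a : K, a ≠ 0 → cv τ a ^ 2 = cv τ (a ^ 2) := by
      intro a ha
      obtain ⟨u, rfl⟩ : ∃ u : Kˣ, (u : K) = a := ⟨Units.mk0 a ha, rfl⟩
      rw [cv_eq, ← Units.val_pow_eq_pow_val, ← Units.val_pow_eq_pow_val, ← map_pow, ← cv_eq τ (u ^ 2)]
    rw [hsq c hc0, hsq b hb0, eq_comm,
      cv_eq_iff τ hτ0 (pow_ne_zero 2 hc0) (pow_ne_zero 2 hb0)] at h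
    exact absurd hcb (not_le.mpr h)

end simple

end Pool.Agent.RM
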