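import Pool.Agent.Lib_helper24.GS.G10
import Pool.Agent.Lib_helper48.OU.U22

/-! The symplectic case without the hypothesis that the cocharacters generate. -/

set_option autoImplicit false
set_option linter.unusedSectionVars false

namespace Pool.Agent.RM

open Module LieModule

section two

variable {K L U : Type*} [Field K] [CharZero K] [IsAlgClosed K] [LieRing L] [LieAlgebra K L]
  [AddCommGroup U] [Module K U] [LieRingModule L U] [LieModule K L U] [IsIrreducible K L U]
  [FiniteDimensional K U]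

/-- A square zero element of rank at most two does not lie in a factor. -/
theorem side_two {J C : LieIdeal K L} (hJC : J ⊔ C = ⊤) (hc : ∀ x ∈ J, ∀ y ∈ C, ⁅x, y⁆ = 0)
    (hf : ∀ x : L, (∀ u : U, ⁅x, u⁆ = 0) → x = 0)
    (ht : ∀ x : L, LinearMap.trace K U (toEnd K L U x) = 0) (hC : C ≠ ⊥)
    (ω : LinearMap.BilinForm K U) (hω : ∀ u, (∀ v, ω u v = 0) → u = 0)
    (hsk : ∀ u v, ω u v = -ω v u) (hinv : ∀ (x : L) (v w : U), ω ⁅x, v⁆ w = -ω v ⁅x, w⁆)
    {N : L} (hN : N ∈ J) (hN0 : ∃ v : U, ⁅N, v⁆ ≠ 0)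
    (hrk : finrank K (LinearMap.range (toEnd K L U N)) ≤ 2) : False := by
  have hcu : ∀ x ∈ J, ∀ y ∈ C, ∀ u : U, ⁅x, ⁅y, u⁆⁆ = ⁅y, ⁅x, u⁆⁆ := fun x hx y hy u => by
    rw [leibniz_lie, hc x hx y hy, zero_lie, zero_add]
  have : Nontrivial U := nontrivial_of_isIrreducible K L U
  obtain ⟨d, hd0, hd, hd1⟩ := Pool.Agent.GS.isotypic_dvd (K := K) (U := U) hJC hc
  have hd2 : d ≠ 1 := by
    intro hd2
    refine hC ((LieSubmodule.eq_bot_iff C).mpr fun y hy => hf y fun u => ?_)
    obtain ⟨r, hr⟩ := hd1 hd2 y hy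
    have h1 : toEnd K L U y = r • (1 : Module.End K U) := LinearMap.ext fun v => hr v
    have h2 := ht y
    rw [h1, map_smul, LinearMap.trace_one, smul_eq_mul] at h2
    have h3 : (finrank K U : K) ≠ 0 := Nat.cast_ne_zero.mpr Module.finrank_pos.ne'
    rw [hr u, (mul_eq_zero.mp h2).resolve_right h3, zero_smul]
  obtain ⟨R, hR⟩ : ∃ R, R = LinearMap.range (toEnd K L U N) := ⟨_, rfl⟩
  have hRC : ∀ y ∈ C, ∀ u ∈ R, ⁅y, u⁆ ∈ R := by
    intro y hy u hu
    rw [hR] at hu ⊢
    obtain ⟨v, rfl⟩ := hu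
    exact ⟨⁅y, v⁆, hcu N hN y hy v⟩
  have hR2 : finrank K R = 2 := by
    have h1 := hd R hRC
    have h2 : finrank K R ≠ 0 := by
      intro h0
      obtain ⟨v, hv⟩ := hN0
      rw [Submodule.finrank_eq_zero] at h0
      apply hv
      have h3 : ⁅N, v⁆ ∈ R := by rw [hR]; exact ⟨v, rfl⟩
      rw [h0, Submodule.mem_bot] at h3
      exact h3
    rw [← hR] at hrk
    rcases Nat.lt_or_ge (finrank K R) 2 with h3 | h3
    · exfalso
      have h4 : finrank K R = 1 := by omega
      rw [h4] at h1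
      exact hd2 (Nat.dvd_one.mp h1)
    · omega
  -- an isotropic element
  have hq : ∃ v : U, ⁅N, v⁆ ≠ 0 ∧ ω v ⁅N, v⁆ = 0 := by
    obtain ⟨v₁, h₁⟩ := hN0
    have h₂' : ∃ v₂ : U, ⁅N, v₂⁆ ∉ Submodule.span K {⁅N, v₁⁆} := by
      by_contra hne
      push Not at hne
      have h3 : R ≤ Submodule.span K {⁅N, v₁⁆} := by
        rw [hR]
        rintro _ ⟨w, rfl⟩
        exact hne w
      have h4 := Submodule.finrank_mono h3
      rw [finrank_span_singleton h₁, hR2] at h4
      omega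
    obtain ⟨v₂, h₂⟩ := h₂'
    have hcomb : ∀ x : K, ⁅N, x • v₁ + v₂⁆ ≠ 0 := by
      intro x h
      rw [lie_add, lie_smul] at h
      apply h₂
      have h3 : ⁅N, v₂⁆ = (-x) • ⁅N, v₁⁆ := by
        rw [neg_smul]
        exact eq_neg_of_add_eq_zero_right h
      rw [h3]
      exact Submodule.smul_mem _ _ (Submodule.mem_span_singleton_self _)
    have hsym : ω v₂ ⁅N, v₁⁆ = ω v₁ ⁅N, v₂⁆ := by
      rw [hsk, hinv N v₁ v₂, neg_neg]
    by_cases h0 : ω v₁ ⁅N, v₁⁆ = 0
    · exact ⟨v₁, h₁, h0⟩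
    · obtain ⟨x, hx⟩ := IsAlgClosed.exists_eval₂_eq_zero_of_injective (RingHom.id K)
        (Function.injective_id)
        (Polynomial.C (ω v₁ ⁅N, v₁⁆) * Polynomial.X ^ 2 +
          Polynomial.C (2 * ω v₁ ⁅N, v₂⁆) * Polynomial.X + Polynomial.C (ω v₂ ⁅N, v₂⁆))
        (by rw [Polynomial.degree_quadratic h0]; decide)
      refine ⟨x • v₁ + v₂, hcomb x, ?_⟩
      simp only [Polynomial.eval₂_add, Polynomial.eval₂_mul, Polynomial.eval₂_C,
        Polynomial.eval₂_X, Polynomial.eval₂_pow, RingHom.id_apply] at hx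
      simp only [lie_add, lie_smul, map_add, map_smul, LinearMap.add_apply, LinearMap.smul_apply,
        smul_eq_mul, hsym]
      linear_combination hx
  obtain ⟨v, hv0, hv⟩ := hq
  have hNR : ⁅N, v⁆ ∈ R := by rw [hR]; exact ⟨v, rfl⟩
  -- the functional
  have hq' : ∃ q ∈ R, ω v q ≠ 0 := by
    by_contra hne
    push Not at hne
    apply hv0
    apply hω
    intro w
    have h1 := hne ⁅N, w⁆ (by rw [hR]; exact ⟨w, rfl⟩)
    rw [hinv, h1, neg_zero]
  obtain ⟨q, hqR, hq⟩ := hq'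
  have hspan : R = Submodule.span K {⁅N, v⁆, q} := by
    symm
    apply Submodule.eq_of_le_of_finrank_le
    · rw [Submodule.span_le]
      intro z hz
      rcases hz with rfl | hz
      · exact hNR
      · rw [Set.mem_singleton_iff] at hz
        rw [hz]; exact hqR
    · rw [hR2]
      have hli : LinearIndependent K ![⁅N, v⁆, q] := by
        rw [LinearIndependent.pair_iff]
        intro a b hab
        have h1 : ω v (a • ⁅N, v⁆ + b • q) = 0 := by rw [hab, map_zero]
        rw [map_add, map_smul, map_smul, hv, smul_zero, zero_add, smul_eq_mul] at h1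
        have hb0 : b = 0 := (mul_eq_zero.mp h1).resolve_right hq
        rw [hb0, zero_smul, add_zero] at hab
        exact ⟨(smul_eq_zero.mp hab).resolve_right hv0, hb0⟩
      have h1 := finrank_span_eq_card hli
      rw [Fintype.card_fin] at h1
      have h2 : Set.range ![⁅N, v⁆, q] = {⁅N, v⁆, q} := by
        ext z
        constructor
        · rintro ⟨i, rfl⟩
          fin_cases i <;> simp
        · rintro (rfl | rfl)
          · exact ⟨0, rfl⟩
          · exact ⟨1, rfl⟩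
      rw [h2] at h1
      exact h1.ge
  have h1 := hd (Submodule.span K {⁅N, v⁆}) (by
    intro y hy u hu
    obtain ⟨a, rfl⟩ := Submodule.mem_span_singleton.mp hu
    rw [lie_smul]
    refine Submodule.smul_mem _ _ ?_
    have h2 := hRC y hy _ hNR
    have h3 : ω v ⁅y, ⁅N, v⁆⁆ = 0 := by
      have h4 : ω ⁅y, v⁆ ⁅N, v⁆ = -ω v ⁅y, ⁅N, v⁆⁆ := hinv y v _
      have h5 : ω ⁅y, v⁆ ⁅N, v⁆ = ω v ⁅y, ⁅N, v⁆⁆ := by
        have h6 : ω ⁅N, ⁅y, v⁆⁆ v = -ω ⁅y, v⁆ ⁅N, v⁆ := hinv N _ _
        rw [hcu N hN y hy v, hsk] at h6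
        linear_combination h6
      rw [h5] at h4
      have h6 : (2 : K) * ω v ⁅y, ⁅N, v⁆⁆ = 0 := by linear_combination h4
      exact (mul_eq_zero.mp h6).resolve_left two_ne_zero
    rw [hspan] at h2
    obtain ⟨a, b, hab⟩ := Submodule.mem_span_pair.mp h2
    rw [← hab, map_add, map_smul, map_smul, hv, smul_zero, zero_add, smul_eq_mul] at h3
    have hb0 : b = 0 := (mul_eq_zero.mp h3).resolve_right hq
    rw [← hab, hb0, zero_smul, add_zero]
    exact Submodule.smul_mem _ _ (Submodule.mem_span_singleton_self _))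
  rw [finrank_span_singleton hv0] at h1
  exact hd2 (Nat.dvd_one.mp h1)

end two

attribute [local instance 100] LieRing.ofAssociativeRing

/-- In the symplectic case, a square zero element of rank one or two forces a simple image. -/
theorem psimple_two {K : Type*} [Field K] [CharZero K] [IsAlgClosed K] {g : Type*} [LieRing g]
    [LieAlgebra K g] (U : Type*) [AddCommGroup U] [Module K U] [FiniteDimensional K U]
    [LieRingModule g U] [LieModule K g U] [LieModule.IsIrreducible K g U]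
    (ω : LinearMap.BilinForm K U) (hω : ∀ u, (∀ v, ω u v = 0) → u = 0)
    (hsk : ∀ u v, ω u v = -ω v u)
    (hinv : ∀ (x : g) (v w : U), ω ⁅x, v⁆ w = -ω v ⁅x, w⁆) (N : g)
    (hN : ∀ v : U, ⁅N, ⁅N, v⁆⁆ = 0) (hN0 : ∃ v : U, ⁅N, v⁆ ≠ 0)
    (hrk : finrank K (LinearMap.range (toEnd K g U N)) ≤ 2) : Pool.Agent.OU.PSimple K g U := by
  obtain ⟨htr, hfa, hirr, hz, hI⟩ := Pool.Agent.GS.facts (K := K) (g := g) U
  intro I
  rcases hI I with h | h | ⟨J, C, hJ, hC, hJC, hJC', hc⟩
  · exact Or.inl h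
  · exact Or.inr h
  exfalso
  let L : LieSubalgebra K (Module.End K U) := (Pool.Agent.GS.phi (g := g) U).range
  let f : g →ₗ⁅K⁆ L := (Pool.Agent.GS.phi (g := g) U).rangeRestrict
  have hf : Function.Surjective f := (Pool.Agent.GS.phi (g := g) U).surjective_rangeRestrict
  have htg : ∀ z : g, LinearMap.trace K U (toEnd K g U z) = 0 := fun z =>
    Pool.Agent.GS.trace_skew ω hω fun v w => hinv z v w
  have hfv : ∀ (z : g) (v : U), ⁅f z, v⁆ = ⁅z, v⁆ := fun z v => by
    have : ⁅f z, v⁆ = ⁅z, v⁆ -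
      ((finrank K U : K)⁻¹ * LinearMap.trace K U (toEnd K g U z)) • v := rfl
    rw [this, htg, mul_zero, zero_smul, sub_zero]
  have hinvL : ∀ (x : L) (v w : U), ω ⁅x, v⁆ w = -ω v ⁅x, w⁆ := by
    intro x v w
    obtain ⟨z, rfl⟩ := hf x
    rw [hfv, hfv, hinv]
  have hmem : f N ∈ J ∨ f N ∈ C := by
    refine Pool.Agent.GS.mem_or (U := U) (c := 0) (d := 0) hJC hc hfa hz fun u => ?_
    rw [zero_smul, zero_smul, zero_add, zero_add, hfv, hfv, hN]
  have hfN0 : ∃ v : U, ⁅f N, v⁆ ≠ 0 := by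
    obtain ⟨v, hv⟩ := hN0
    exact ⟨v, by rw [hfv]; exact hv⟩
  have hrk' : finrank K (LinearMap.range (toEnd K L U (f N))) ≤ 2 := by
    have h1 : toEnd K L U (f N) = toEnd K g U N := LinearMap.ext fun v => hfv N v
    rw [h1]; exact hrk
  rcases hmem with h | h
  · exact side_two hJC hc hfa htr hC ω hω hsk hinvL h hfN0 hrk'
  · refine side_two (J := C) (C := J) (by rw [sup_comm]; exact hJC) (fun x hx y hy => ?_) hfa
      htr hJ ω hω hsk hinvL h hfN0 hrk'
    rw [← lie_skew, hc y hy x hx, neg_zero]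

/-- The symplectic case, from a simple image and one cocharacter. -/
theorem condS_simple {K : Type*} [Field K] [CharZero K] [IsAlgClosed K] {g : Type*} [LieRing g]
    [LieAlgebra K g] {V : Type*} [AddCommGroup V] [Module K V] [FiniteDimensional K V]
    [LieRingModule g V] [LieModule K g V] [LieModule.IsIrreducible K g V]
    {ω : LinearMap.BilinForm K V} (hω : ω.Nondegenerate) (halt : ∀ v w, ω v w = - ω w v)
    (hinv : ∀ (x : g) (v w : V), ω ⁅x, v⁆ w = - ω v ⁅x, w⁆)
    (hs : Pool.Agent.OU.PSimple K g V) (h : g) (hh : ∀ v : V, ⁅h, ⁅h, v⁆⁆ = (1/4 : K) • v)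
    (hns : ¬ ∃ c : K, ∀ v : V, ⁅h, v⁆ = c • v)
    (hc : (∃ (x : g) (c : K), (¬ ∃ c : K, ∀ v : V, ⁅x, v⁆ = c • v) ∧
      4 * finrank K (LinearMap.range (LieModule.toEnd K g V x - c • (1 : Module.End K V)))
        < finrank K V) ∨
      (∃ (s : V ≃ₗ[K] V) (c : K), (∀ x : g, ∃ y : g, ∀ v : V, s ⁅x, v⁆ = ⁅y, s v⁆) ∧
        (¬ ∃ a : K, ∀ v : V, s v = a • v) ∧
        2 * 4 * finrank K (LinearMap.range ((s : Module.End K V) - c • (1 : Module.End K V)))
          < finrank K V) ∨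
      ∃ x : g, (∀ v : V, ⁅x, ⁅x, v⁆⁆ = 0) ∧ (∃ v : V, ⁅x, v⁆ ≠ 0) ∧
        ¬ Pool.Agent.OT.Exc (finrank K V) (finrank K (LinearMap.range (LieModule.toEnd K g V x)))) :
    ∀ x : Module.End K V, Pool.Agent.OT.Sk ω x → ∃ y : g, LieModule.toEnd K g V y = x := by
  have hnt : Nontrivial V := LieModule.nontrivial_of_isIrreducible K g V
  let L : LieSubalgebra K (Module.End K V) := (toEnd K g V).range
  let f : g →ₗ⁅K⁆ L := (toEnd K g V).rangeRestrict
  have hf : Function.Surjective f := (toEnd K g V).surjective_rangeRestrict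
  have hfv : ∀ (z : g) (v : V), ⁅f z, v⁆ = ⁅z, v⁆ := fun z v => rfl
  have hfe : ∀ z : g, toEnd K L V (f z) = toEnd K g V z := fun z => LinearMap.ext fun v => rfl
  have hirr : LieModule.IsIrreducible K L V := by
    refine LieModule.IsIrreducible.mk fun W hW => ?_
    let W' : LieSubmodule K g V :=
      { W.toSubmodule with
        lie_mem := by
          intro z v hv
          rw [← hfv]
          exact W.lie_mem hv }
    have h1 : W' ≠ ⊥ := by
      intro h
      refine hW ((LieSubmodule.eq_bot_iff W).mpr fun v hv => ?_)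
      have h2 : v ∈ W' := hv
      rw [h] at h2
      simpa using h2
    have h2 : W' = ⊤ := (eq_bot_or_eq_top W').resolve_left h1
    rw [eq_top_iff]
    intro v _
    have h3 : v ∈ W' := by rw [h2]; exact LieSubmodule.mem_top v
    exact h3
  have hinvL : ∀ (x : L) (v w : V), ω ⁅x, v⁆ w = -ω v ⁅x, w⁆ := by
    intro x v w
    obtain ⟨z, rfl⟩ := hf x
    rw [hfv, hfv, hinv]
  have hpull : ∀ I : LieIdeal K L, (∀ y ∈ I, ∃ c : K, ∀ v : V, ⁅y, v⁆ = c • v) ∨
      (∀ z : L, ∃ y ∈ I, ∃ c : K, ∀ v : V, ⁅z, v⁆ = ⁅y, v⁆ + c • v) := by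
    intro I
    rcases hs (I.comap f) with h1 | h1
    · left
      intro y hy
      obtain ⟨z, rfl⟩ := hf y
      exact h1 z (LieIdeal.mem_comap.mpr hy)
    · right
      intro z
      obtain ⟨z', rfl⟩ := hf z
      obtain ⟨y, hy, c, hyc⟩ := h1 z'
      exact ⟨f y, LieIdeal.mem_comap.mp hy, c, hyc⟩
  have sc0 : ∀ (c : K) (T : Module.End K V), (∀ v w, ω (T v) w = - ω v (T w)) →
      (∀ v : V, T v = c • v) → T = 0 := by
    intro c T hT hc
    have hc0 : c = 0 := by
      refine Pool.Agent.OU.scalar_zero hω (c := c) ?_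
      intro v w
      rw [← hc, ← hc]
      exact hT v w
    ext v
    rw [hc, hc0, zero_smul, LinearMap.zero_apply]
  have HT : ∀ I : LieIdeal K L, (∀ h : L, (∀ v : V, ⁅h, ⁅h, v⁆⁆ = (1/4 : K) • v) → h ∈ I) →
      I = ⊤ := by
    intro I hI
    rcases hpull I with h1 | h1
    · exact absurd (h1 (f h) (hI (f h) hh)) hns
    · rw [eq_top_iff]
      intro z _
      obtain ⟨y, hy, c, hyc⟩ := h1 z
      have h2 : (z : Module.End K V) - y = 0 := by
        refine sc0 c _ ?_ ?_
        · intro v w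
          have e1 := hinvL z v w
          have e2 := hinvL y v w
          rw [LinearMap.sub_apply, LinearMap.sub_apply, map_sub, map_sub, LinearMap.sub_apply]
          have e1' : ω ((z : Module.End K V) v) w = - ω v ((z : Module.End K V) w) := e1
          have e2' : ω ((y : Module.End K V) v) w = - ω v ((y : Module.End K V) w) := e2
          rw [e1', e2']
          ring
        · intro v
          have e1 : (z : Module.End K V) v = (y : Module.End K V) v + c • v := hyc v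
          rw [LinearMap.sub_apply, e1]
          abel
      have h3 : z = y := Subtype.ext (sub_eq_zero.mp h2)
      rw [h3]
      exact hy
  have key := Pool.Agent.OU.condS (g := L) hω halt hinvL HT (Or.inr ⟨hpull, ?_⟩)
  · intro x hx
    obtain ⟨y, hy⟩ := key x hx
    obtain ⟨z, rfl⟩ := hf y
    exact ⟨z, by rw [← hfe]; exact hy⟩
  · rcases hc with ⟨x, c, h1, h2⟩ | ⟨s, c, h1, h2, h3⟩ | ⟨x, h1, h2, h3⟩
    · exact Or.inl (Or.inl ⟨f x, c, h1, by rw [hfe]; exact h2⟩)
    · refine Or.inl (Or.inr ⟨s, c, ?_, h2, h3⟩)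
      intro x
      obtain ⟨z, rfl⟩ := hf x
      obtain ⟨y, hy⟩ := h1 z
      exact ⟨f y, hy⟩
    · exact Or.inr ⟨f x, h1, h2, by rw [hfe]; exact h3⟩

end Pool.Agent.RM
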