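import Pool.Agent.Lib_helper54.RM.SQ
import Pool.Agent.Lib_helper54.RM.NoHT

/-! The case without form: a diagonalisable element of the normaliser with one large eigenspace and
otherwise simple eigenvalues, and an element of g of rank at most two up to scalars. -/

set_option autoImplicit false
set_option linter.unusedSectionVars false

namespace Pool.Agent.RM

open Module LieModule

attribute [local instance 100] LieRing.ofAssociativeRing

variable {K : Type*} [Field K] [CharZero K] {g : Type*} [LieRing g] [LieAlgebra K g]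
  {V : Type*} [AddCommGroup V] [Module K V] [FiniteDimensional K V]
  [LieRingModule g V] [LieModule K g V]

omit [CharZero K] in
theorem rank_of_eig {s : V ≃ₗ[K] V} {r : ℕ}
    (h1 : finrank K (Module.End.eigenspace (s : Module.End K V) 1) + r = finrank K V) :
    finrank K (LinearMap.range ((s : Module.End K V) - 1)) = r := by
  have h2 := LinearMap.finrank_range_add_finrank_ker ((s : Module.End K V) - 1)
  have h3 : LinearMap.ker ((s : Module.End K V) - 1) =
      Module.End.eigenspace (s : Module.End K V) 1 := by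
    ext v
    rw [LinearMap.mem_ker, Module.End.mem_eigenspace_iff, LinearMap.sub_apply,
      Module.End.one_apply, one_smul, sub_eq_zero]
  rw [h3] at h2
  omega

/-- The image is simple. -/
theorem psimple_mr [IsAlgClosed K] [LieModule.IsIrreducible K g V] {s : V ≃ₗ[K] V} {r : ℕ}
    (hs : ∀ y : g, ∃ z : g, ∀ v : V, s ⁅y, v⁆ = ⁅z, s v⁆) (hD : Diag (s : Module.End K V))
    (h1 : finrank K (Module.End.eigenspace (s : Module.End K V) 1) + r = finrank K V)
    (hk : ∀ ζ : K, ζ ≠ 1 → finrank K (Module.End.eigenspace (s : Module.End K V) ζ) ≤ 1)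
    (hr0 : 0 < r) (hr : 4 * r < finrank K V)
    (h : g) (hh : ∀ v : V, ⁅h, ⁅h, v⁆⁆ = (1/4 : K) • v)
    (hns : ¬ ∃ c : K, ∀ v : V, ⁅h, v⁆ = c • v) (x : g) (c : K)
    (hx : ¬ ∃ c : K, ∀ v : V, ⁅x, v⁆ = c • v)
    (hρ : finrank K (LinearMap.range (toEnd K g V x - c • (1 : Module.End K V))) ≤ 2) :
    Pool.Agent.OU.PSimple K g V := by
  classical
  by_contra hnot
  obtain ⟨α, β, hα, hβ, hαβ, hβa, hrk, hdich⟩ := dichotomy2 hnot h hh hns rfl rfl
  obtain ⟨ha0, hb0⟩ := Pool.Agent.OU.mult_pos h hh hns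
  obtain ⟨hab, -⟩ := Pool.Agent.OU.sign_eq (K := K) (V := V) h hh
  generalize finrank K (Module.End.eigenspace (toEnd K g V h) (1/2)) = a at *
  generalize finrank K (Module.End.eigenspace (toEnd K g V h) (-(1/2))) = b at *
  rcases hdich s hs hD with ⟨hdvd, h2⟩ | ⟨y, z, hyz⟩
  · rw [rank_of_eig h1] at h2
    have hα2 : α = 2 := by
      rcases hrk x c hx with h3 | h3
      · omega
      · have h4 : β = 2 := by omega
        rw [h4] at hdvd
        have := Nat.le_of_dvd (by norm_num) hdvd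
        omega
    obtain ⟨t, ht⟩ := hβa
    have h3 : a < 2 * β := by rw [hα2] at hαβ; omega
    have ht1 : t = 1 := by
      have h5 : t < 2 := by
        by_contra h6
        have h7 : β * 2 ≤ β * t := Nat.mul_le_mul_left _ (by omega)
        omega
      have h6 : t ≠ 0 := by
        rintro rfl
        omega
      omega
    rw [ht1, mul_one] at ht
    have hbβ : b = β := by rw [hα2] at hαβ; omega
    rw [← hαβ, hα2, ht, hbβ] at h2
    rw [← hαβ, hα2] at hr
    have h8 : β * β ≤ (r * 2) * β := by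
      calc β * β ≤ r * (2 * β) := h2
        _ = (r * 2) * β := by ring
    have h9 := Nat.le_of_mul_le_mul_right h8 (by omega : 0 < β)
    omega
  · -- some eigenvalue different from one
    have hex : ∃ ζ : K, finrank K (Module.End.eigenspace (s : Module.End K V) ζ) = 1 := by
      obtain ⟨bs, w, hb⟩ := exists_eigenbasis hD
      have hc := eig_count bs w hb
      obtain ⟨i, hi⟩ : ∃ i, w i ≠ 1 := by
        by_contra hne
        push Not at hne
        have h3 := hc 1
        rw [Finset.filter_true_of_mem (fun i _ => hne i), Finset.card_univ, Fintype.card_fin] at h3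
        omega
      refine ⟨w i, le_antisymm (hk _ hi) ?_⟩
      rw [hc, Nat.one_le_iff_ne_zero, ← Nat.pos_iff_ne_zero, Finset.card_pos]
      exact ⟨i, Finset.mem_filter.mpr ⟨Finset.mem_univ _, rfl⟩⟩
    obtain ⟨ζ, hζ⟩ := hex
    rcases comb y z _ hyz one_ne_zero hk with h3 | h3 | ⟨h3, h4⟩
    · have := h3 ζ
      rw [hζ] at this
      have := Nat.le_of_dvd one_pos this
      omega
    · have := h3 ζ
      rw [hζ] at this
      have := Nat.le_of_dvd one_pos this
      omega
    · have h5 : finrank K (Module.End.eigenspace (s : Module.End K V) 1) = finrank K V - r := by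
        omega
      rw [h5, one_mul] at h3 h4
      have h6 : (finrank K V - r) * (finrank K V - r) ≤ α * β := Nat.mul_le_mul h3 h4
      rw [hαβ] at h6
      have h7 : 3 * finrank K V < 4 * (finrank K V - r) := by omega
      nlinarith

theorem le_choose' : ∀ (m k : ℕ), 0 < k → k < m → m ≤ m.choose k
  | 0, _, _, h => absurd h (Nat.not_lt_zero _)
  | m + 1, k, h0, h1 => by
    obtain ⟨j, rfl⟩ : ∃ j, k = j + 1 := ⟨k - 1, by omega⟩
    rw [Nat.choose_succ_succ]
    rcases Nat.eq_zero_or_pos j with rfl | hj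
    · rw [Nat.choose_zero_right, Nat.choose_one_right]; omega
    · have h2 := le_choose' m j hj (by omega)
      have h3 : 0 < m.choose (Nat.succ j) := Nat.choose_pos (by omega)
      omega

/-- The exceptional ranks are at least three. -/
theorem excU_three {a b r : ℕ} (hab : a ≠ b) (h : Pool.Agent.OU.ExcU a b r) : 3 ≤ r := by
  obtain ⟨m, k, h1, h2, h3, h4, h5⟩ := h
  have hm : 3 ≤ m := by
    by_contra hlt
    have hm2 : m = 2 := by omega
    have hk1 : k = 1 := by omega
    subst hm2 hk1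
    apply hab
    rw [h3, h4]
    decide
  rw [h5]
  exact hm.trans (le_choose' m k h1 h2)

/-- An element of rank at most two up to scalars and a simple image. -/
theorem onto_two [IsAlgClosed K] [LieModule.IsIrreducible K g V]
    (hs : Pool.Agent.OU.PSimple K g V)
    (h : g) (hh : ∀ v : V, ⁅h, ⁅h, v⁆⁆ = (1/4 : K) • v)
    (hns : ¬ ∃ c : K, ∀ v : V, ⁅h, v⁆ = c • v)
    (hsd : (¬ ∃ (f : V ≃ₗ[K] Module.Dual K V) (χ : g → K), ∀ (x : g) (v : V),
        f ⁅x, v⁆ = ⁅x, f v⁆ + χ x • f v) ∨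
      ∃ h : g, (∀ v : V, ⁅h, ⁅h, v⁆⁆ = (1/4 : K) • v) ∧ (¬ ∃ c : K, ∀ v : V, ⁅h, v⁆ = c • v) ∧
        finrank K (Module.End.eigenspace (LieModule.toEnd K g V h) (1/2)) ≠
          finrank K (Module.End.eigenspace (LieModule.toEnd K g V h) (-(1/2)))) (x : g) (c : K)
    (hx : ¬ ∃ c : K, ∀ v : V, ⁅x, v⁆ = c • v)
    (hρ : finrank K (LinearMap.range (toEnd K g V x - c • (1 : Module.End K V))) ≤ 2) :
    ∀ z : Module.End K V, LinearMap.trace K V z = 0 →
      ∃ (y : g) (c : K), ∀ v : V, ⁅y, v⁆ = z v + c • v := by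
  obtain ⟨y, hy1, hy2, hy3⟩ := sq_elem hs h hh hns x c hx hρ
  refine Pool.Agent.OU.condU2 hs h hh hns hsd rfl rfl (Or.inr ⟨y, hy1, hy2, ?_, ?_⟩)
  · intro hab hE
    have := excU_three hab hE
    omega
  · rintro - ⟨t, ht, -, -, h1⟩
    have h2 : 2 ^ 2 ≤ 2 ^ t := Nat.pow_le_pow_right (by norm_num) ht
    have h3 : 2 ^ 2 ≤ 2 ^ (t + 1) := Nat.pow_le_pow_right (by norm_num) (by omega)
    omega

/-- The conclusion for a module without form, from a diagonalisable element of the normaliser with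
one large eigenspace and otherwise simple eigenvalues, and an element of g of rank at most two up to
scalars. -/
theorem onU_mr [IsAlgClosed K] [LieModule.IsIrreducible K g V] {s : V ≃ₗ[K] V} {r : ℕ}
    (hs : ∀ y : g, ∃ z : g, ∀ v : V, s ⁅y, v⁆ = ⁅z, s v⁆) (hD : Diag (s : Module.End K V))
    (h1 : finrank K (Module.End.eigenspace (s : Module.End K V) 1) + r = finrank K V)
    (hk : ∀ ζ : K, ζ ≠ 1 → finrank K (Module.End.eigenspace (s : Module.End K V) ζ) ≤ 1)
    (hr0 : 0 < r) (hr : 4 * r < finrank K V)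
    (h : g) (hh : ∀ v : V, ⁅h, ⁅h, v⁆⁆ = (1/4 : K) • v)
    (hns : ¬ ∃ c : K, ∀ v : V, ⁅h, v⁆ = c • v)
    (hsd : (¬ ∃ (f : V ≃ₗ[K] Module.Dual K V) (χ : g → K), ∀ (x : g) (v : V),
        f ⁅x, v⁆ = ⁅x, f v⁆ + χ x • f v) ∨
      ∃ h : g, (∀ v : V, ⁅h, ⁅h, v⁆⁆ = (1/4 : K) • v) ∧ (¬ ∃ c : K, ∀ v : V, ⁅h, v⁆ = c • v) ∧
        finrank K (Module.End.eigenspace (LieModule.toEnd K g V h) (1/2)) ≠
          finrank K (Module.End.eigenspace (LieModule.toEnd K g V h) (-(1/2)))) (x : g) (c : K)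
    (hx : ¬ ∃ c : K, ∀ v : V, ⁅x, v⁆ = c • v)
    (hρ : finrank K (LinearMap.range (toEnd K g V x - c • (1 : Module.End K V))) ≤ 2) :
    ∀ z : Module.End K V, LinearMap.trace K V z = 0 →
      ∃ (y : g) (c : K), ∀ v : V, ⁅y, v⁆ = z v + c • v :=
  onto_two (psimple_mr hs hD h1 hk hr0 hr h hh hns x c hx hρ) h hh hns hsd x c hx hρ

/-- The symplectic case: an element of g of square zero and rank at most two. -/
theorem onW_two [IsAlgClosed K] [LieModule.IsIrreducible K g V] {ω : LinearMap.BilinForm K V}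
    (hω : ω.Nondegenerate) (halt : ∀ v w, ω v w = - ω w v)
    (hinv : ∀ (x : g) (v w : V), ω ⁅x, v⁆ w = - ω v ⁅x, w⁆)
    (h : g) (hh : ∀ v : V, ⁅h, ⁅h, v⁆⁆ = (1/4 : K) • v)
    (x : g) (hx2 : ∀ v : V, ⁅x, ⁅x, v⁆⁆ = 0) (hx0 : ∃ v : V, ⁅x, v⁆ ≠ 0)
    (hρ : finrank K (LinearMap.range (toEnd K g V x)) ≤ 2) :
    ∀ z : Module.End K V, Pool.Agent.OT.Sk ω z → ∃ y : g, LieModule.toEnd K g V y = z := by
  have hnt : Nontrivial V := nontrivial_of_isIrreducible K g V
  have hnd : ∀ u : V, (∀ w, ω u w = 0) → u = 0 := fun u hu => by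
    by_contra hne
    obtain ⟨w, hw⟩ := Pool.Agent.OT.exists_pair hω hne
    rw [hu w] at hw
    exact zero_ne_one hw
  have hns : ¬ ∃ c : K, ∀ v : V, ⁅h, v⁆ = c • v := by
    rintro ⟨c, hc⟩
    have hc0 : c = 0 := by
      refine Pool.Agent.OU.scalar_zero hω (c := c) ?_
      intro v w
      rw [← hc, ← hc]
      exact hinv h v w
    obtain ⟨v, hv⟩ := hx0
    have h1 : (1/4 : K) • v = 0 := by
      rw [← hh v, hc v, hc0, zero_smul, lie_zero]
    have h2 : v = 0 := (smul_eq_zero.mp h1).resolve_left (by norm_num)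
    rw [h2, lie_zero] at hv
    exact hv rfl
  have hs := psimple_two V ω hnd halt hinv x hx2 hx0 hρ
  refine condS_simple hω halt hinv hs h hh hns (Or.inr (Or.inr ⟨x, hx2, hx0, ?_⟩))
  rintro (⟨t, ht, -, -, h1⟩ | ⟨k, hk, -, -, h1⟩)
  · have h2 : 2 ^ 3 ≤ 2 ^ t := Nat.pow_le_pow_right (by norm_num) ht
    have h3 : 2 ^ 3 ≤ 2 ^ (t + 1) := Nat.pow_le_pow_right (by norm_num) (by omega)
    omega
  · have h2 := le_choose' (2 * k) k (by omega) (by omega)
    omega

end Pool.Agent.RM
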