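import Pool.Agent.Lib_helper54.SJ.Dims

/-! Diagonalisable operators. -/

set_option autoImplicit false

namespace Pool.Agent.RM

open Module

variable {K V W : Type*} [Field K] [AddCommGroup V] [Module K V] [AddCommGroup W] [Module K W]

/-- The eigenspaces generate. -/
def Diag (f : Module.End K V) : Prop := ⨆ μ, Module.End.eigenspace f μ = ⊤

theorem diag_smul {f : Module.End K V} (hf : Diag f) (c : K) : Diag (c • f) := by
  rw [Diag, eq_top_iff, ← (hf : _ = ⊤)]
  refine iSup_le fun μ => ?_
  refine le_trans ?_ (le_iSup _ (c * μ))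
  intro v hv
  rw [Module.End.mem_eigenspace_iff] at hv ⊢
  rw [LinearMap.smul_apply, hv, smul_smul]

theorem diag_of_inj [FiniteDimensional K V] {f : Module.End K V} {g : Module.End K W}
    (j : W →ₗ[K] V) (hj : Function.Injective j) (h : ∀ w, j (g w) = f (j w)) (hf : Diag f) :
    Diag g := by
  have h1 : ∀ x ∈ LinearMap.range j, f x ∈ LinearMap.range j := by
    rintro _ ⟨w, rfl⟩
    exact ⟨g w, h w⟩
  have h2 := Submodule.inf_iSup_genEigenspace (p := LinearMap.range j) (f := f) h1 1
  have h3 : (⨆ μ, f.genEigenspace μ 1) = ⊤ := hf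
  rw [h3, inf_top_eq] at h2
  rw [Diag, eq_top_iff]
  intro w _
  have h4 : j w ∈ LinearMap.range j := ⟨w, rfl⟩
  rw [h2] at h4
  have h5 : (⨆ μ, LinearMap.range j ⊓ f.genEigenspace μ 1) ≤
      (⨆ μ, Module.End.eigenspace g μ).map j := by
    refine iSup_le fun μ => ?_
    rintro _ ⟨⟨w', rfl⟩, hw'⟩
    refine ⟨w', ?_, rfl⟩
    refine (le_iSup (fun μ => Module.End.eigenspace g μ) μ) ?_
    rw [Module.End.mem_eigenspace_iff]
    apply hj
    rw [h, map_smul]
    exact Module.End.mem_eigenspace_iff.mp hw'
  obtain ⟨w', hw', he⟩ := h5 h4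
  rw [← hj he]
  exact hw'

theorem exists_eigenbasis [FiniteDimensional K V] {f : Module.End K V} (hf : Diag f) :
    ∃ (b : Basis (Fin (finrank K V)) K V) (x : Fin (finrank K V) → K),
      ∀ i, f (b i) = x i • b i := by
  classical
  let S : Set V := {v | ∃ μ : K, f v = μ • v}
  have hS : Submodule.span K S = ⊤ := by
    rw [eq_top_iff, ← (hf : _ = ⊤)]
    refine iSup_le fun μ => fun v hv => ?_
    exact Submodule.subset_span ⟨μ, Module.End.mem_eigenspace_iff.mp hv⟩
  obtain ⟨b, hbS, hb, hli⟩ := exists_linearIndependent K S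
  rw [hS] at hb
  let B : Basis b K V := Basis.mk hli (by rw [Subtype.range_coe, hb])
  have hfin : Fintype b := FiniteDimensional.fintypeBasisIndex B
  have hc : Fintype.card b = finrank K V := (Module.finrank_eq_card_basis B).symm
  let e : b ≃ Fin (finrank K V) := Fintype.equivFinOfCardEq hc
  have h1 : ∀ i, ∃ μ : K, f ((B.reindex e) i) = μ • (B.reindex e) i := by
    intro i
    have h2 : (B.reindex e) i = ((e.symm i : b) : V) := by
      rw [Basis.reindex_apply, Basis.mk_apply]
    rw [h2]
    exact hbS (e.symm i).2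
  choose x hx using h1
  exact ⟨B.reindex e, x, hx⟩

theorem eig_count {ι : Type*} [Fintype ι] [DecidableEq K] {f : Module.End K V} (b : Basis ι K V)
    (x : ι → K) (h : ∀ i, f (b i) = x i • b i) (ζ : K) :
    finrank K (Module.End.eigenspace f ζ) = (Finset.univ.filter fun i => x i = ζ).card := by
  classical
  have h1 : Module.End.eigenspace f ζ =
      Submodule.span K (Set.range fun i : {i // x i = ζ} => b i) := by
    apply le_antisymm
    · intro v hv
      rw [Module.End.mem_eigenspace_iff] at hv
      have h2 : ∀ i, x i ≠ ζ → b.repr v i = 0 := by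
        intro i hi
        have h3 : b.repr (f v) i = x i * b.repr v i := by
          conv_lhs => rw [← b.sum_repr v, map_sum, map_sum]
          rw [Finset.sum_apply']
          rw [Finset.sum_eq_single i]
          · rw [map_smul, h, map_smul, map_smul, b.repr_self]
            simp [mul_comm]
          · intro j _ hj
            rw [map_smul, h, map_smul, map_smul, b.repr_self]
            simp [hj]
          · intro hi
            exact absurd (Finset.mem_univ i) hi
        rw [hv, map_smul, Finsupp.smul_apply, smul_eq_mul] at h3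
        have h4 : (x i - ζ) * b.repr v i = 0 := by rw [sub_mul, ← h3, sub_self]
        exact (mul_eq_zero.mp h4).resolve_left (sub_ne_zero.mpr hi)
      rw [← b.sum_repr v]
      refine Submodule.sum_mem _ fun i _ => ?_
      by_cases hi : x i = ζ
      · exact Submodule.smul_mem _ _ (Submodule.subset_span ⟨⟨i, hi⟩, rfl⟩)
      · rw [h2 i hi, zero_smul]
        exact Submodule.zero_mem _
    · rw [Submodule.span_le]
      rintro _ ⟨⟨i, hi⟩, rfl⟩
      show b i ∈ Module.End.eigenspace f ζ
      rw [Module.End.mem_eigenspace_iff, h, hi]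
  have h2 : LinearIndependent K (fun i : {i // x i = ζ} => b i) :=
    b.linearIndependent.comp _ Subtype.val_injective
  rw [h1, finrank_span_eq_card h2, Fintype.card_subtype]

end Pool.Agent.RM
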