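import Pool.Agent.Lib_helper54.RM.ResLift

/-! The lift of an arbitrary element of the normaliser with respect to a valuation of K: the
multiplicities are the sizes of the classes of eigenvalues under |a - b| < |a|. -/

set_option autoImplicit false

namespace Pool.Agent.RM

open Polynomial IsLocalRing Module Pool.Agent.SJ

variable {K : Type*} [Field K] (O : ValuationSubring K)

theorem prin_div [IsAlgClosed K] (n : ℕ) (hn : n ≠ 0) (u : O.principalUnitGroup) :
    ∃ v : O.principalUnitGroup, v ^ n = u := by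
  obtain ⟨v, hv⟩ : ∃ v : (Units.map (residue O).toMonoidHom).ker,
    v ^ n = O.principalUnitGroupEquiv u := ker_div O n hn (O.principalUnitGroupEquiv u)
  refine ⟨O.principalUnitGroupEquiv.symm v, ?_⟩
  apply O.principalUnitGroupEquiv.injective
  rw [map_pow, MulEquiv.apply_symm_apply]
  exact hv

/-- A homomorphism of the multiplicative group of K whose kernel is the group of principal
units. -/
theorem exists_hom [IsAlgClosed K] : ∃ c : Kˣ →* Kˣ, ∀ u : Kˣ, c u = 1 ↔ u ∈ O.principalUnitGroup := by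
  classical
  let i1 : DivisibleBy (Additive O.principalUnitGroup) ℕ := divisibleByOfSMulRightSurj _ _ (by
    intro n hn u
    obtain ⟨v, hv⟩ := prin_div O n hn (Additive.toMul u)
    exact ⟨Additive.ofMul v, congrArg Additive.ofMul hv⟩)
  let i2 : DivisibleBy (Additive O.principalUnitGroup) ℤ :=
    AddGroup.divisibleByIntOfDivisibleByNat _
  obtain ⟨r, hr⟩ :=
    (Module.Baer.of_divisible (Additive O.principalUnitGroup)).extension_property_addMonoidHom
    (MonoidHom.toAdditive O.principalUnitGroup.subtype) (fun a b h => Subtype.ext h)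
    (AddMonoidHom.id _)
  let ρ : Kˣ →* O.principalUnitGroup := MonoidHom.toAdditive.symm r
  have hρ : ∀ u : O.principalUnitGroup, ρ (u : Kˣ) = u := fun u =>
    congrArg Additive.toMul (DFunLike.congr_fun hr (Additive.ofMul u))
  let c : Kˣ →* Kˣ := (MonoidHom.id Kˣ) / (O.principalUnitGroup.subtype.comp ρ)
  refine ⟨c, fun u => ⟨fun h => ?_, fun h => ?_⟩⟩
  · have h1 : u / (ρ u : Kˣ) = 1 := h
    rw [div_eq_one] at h1
    rw [h1]
    exact (ρ u).2
  · show u / (ρ u : Kˣ) = 1
    have h2 := hρ ⟨u, h⟩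
    rw [h2, div_self']

variable {O}

open Classical in
/-- The value of the homomorphism at an element of K. -/
noncomputable def cv (c : Kˣ →* Kˣ) (α : K) : K :=
  if h : α = 0 then 1 else (c (Units.mk0 α h) : K)

theorem cv_eq (c : Kˣ →* Kˣ) (u : Kˣ) : cv c (u : K) = c u := by
  rw [cv, dif_neg u.ne_zero, Units.mk0_val]

theorem cv_eq_iff (c : Kˣ →* Kˣ) (hc : ∀ u : Kˣ, c u = 1 ↔ u ∈ O.principalUnitGroup)
    {α β : K} (hα : α ≠ 0) (hβ : β ≠ 0) :
    cv c β = cv c α ↔ O.valuation (β - α) < O.valuation α := by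
  obtain ⟨a, rfl⟩ : ∃ a : Kˣ, (a : K) = α := ⟨Units.mk0 α hα, rfl⟩
  obtain ⟨b, rfl⟩ : ∃ b : Kˣ, (b : K) = β := ⟨Units.mk0 β hβ, rfl⟩
  rw [cv_eq, cv_eq, Units.val_inj, ← div_eq_one, ← _root_.map_div, hc,
    ValuationSubring.mem_principalUnitGroup_iff]
  have h1 : ((b / a : Kˣ) : K) - 1 = ((b : K) - a) / a := by
    rw [Units.val_div_eq_div_val, sub_div, div_self a.ne_zero]
  rw [h1, map_div₀, div_lt_one₀]
  exact (Valuation.pos_iff _).mpr a.ne_zero

variable {V : Type*} [AddCommGroup V] [Module K V] [FiniteDimensional K V]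

open Classical in
/-- The number of the eigenvalues b of γ, with multiplicities, with |b - a| < |a|. -/
noncomputable def classSize (O : ValuationSubring K) (γ : V ≃ₗ[K] V) (a : K) : ℕ :=
  (((γ : Module.End K V).charpoly.roots).filter
    fun b => O.valuation (b - a) < O.valuation a).card

theorem root_ne_zero (γ : V ≃ₗ[K] V) :
    ∀ α ∈ (γ : Module.End K V).charpoly.roots, α ≠ 0 := by
  rintro α hα rfl
  have h1 : Module.End.HasEigenvalue (γ : Module.End K V) 0 := by
    rw [Module.End.hasEigenvalue_iff_isRoot_charpoly]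
    exact (Polynomial.mem_roots'.mp hα).2
  obtain ⟨v, hv⟩ := h1.exists_hasEigenvector
  have h2 : γ v = (0 : K) • v := hv.apply_eq_smul
  rw [zero_smul] at h2
  exact hv.2 (γ.map_eq_zero_iff.mp h2)

theorem class_lift [IsAlgClosed K] (O : ValuationSubring K) (γ : V ≃ₗ[K] V)
    (L : Submodule K (Module.End K V)) (hL : ∀ x ∈ L, γ.conj x ∈ L) :
    ∃ (c : Kˣ →* Kˣ) (s : V ≃ₗ[K] V), (∀ u : Kˣ, c u = 1 ↔ u ∈ O.principalUnitGroup) ∧
      (∀ x ∈ L, s.conj x ∈ L) ∧ (∀ α ∈ (γ : Module.End K V).charpoly.roots, cv c α ≠ 0 ∧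
        finrank K (Module.End.eigenspace (s : Module.End K V) (cv c α)) = classSize O γ α) ∧
      (⨆ μ, Module.End.eigenspace (s : Module.End K V) μ) = ⊤ ∧
      ∀ z : K, 0 < finrank K (Module.End.eigenspace (s : Module.End K V) z) →
        ∃ α ∈ (γ : Module.End K V).charpoly.roots, cv c α = z := by
  classical
  obtain ⟨c, hc⟩ := exists_hom O
  let R := (γ : Module.End K V).charpoly.roots
  have hR0 : ∀ α ∈ R, α ≠ 0 := root_ne_zero γ
  have hev : ∀ α, Module.End.maxGenEigenspace (γ : Module.End K V) α ≠ ⊥ → α ∈ R := by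
    intro α hα
    have h1 : 0 < finrank K (Module.End.maxGenEigenspace (γ : Module.End K V) α) := by
      rw [Nat.pos_iff_ne_zero]
      intro h
      exact hα (Submodule.finrank_eq_zero.mp h)
    rw [LinearMap.finrank_maxGenEigenspace_eq, ← Polynomial.count_roots] at h1
    exact Multiset.count_pos.mp h1
  have hcv0 : ∀ α : K, cv c α ≠ 0 := by
    intro α
    rw [cv]
    split_ifs with h
    · exact one_ne_zero
    · exact (c _).ne_zero
  obtain ⟨s, hs, hsL⟩ := lift γ L hL (cv c) (fun α _ => hcv0 α) (by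
    intro α₁ α₂ α₃ α₄ h1 h2 h3 h4 h
    obtain ⟨a₁, rfl⟩ : ∃ a : Kˣ, (a : K) = α₁ := ⟨Units.mk0 _ (hR0 _ (hev _ h1)), rfl⟩
    obtain ⟨a₂, rfl⟩ : ∃ a : Kˣ, (a : K) = α₂ := ⟨Units.mk0 _ (hR0 _ (hev _ h2)), rfl⟩
    obtain ⟨a₃, rfl⟩ : ∃ a : Kˣ, (a : K) = α₃ := ⟨Units.mk0 _ (hR0 _ (hev _ h3)), rfl⟩
    obtain ⟨a₄, rfl⟩ : ∃ a : Kˣ, (a : K) = α₄ := ⟨Units.mk0 _ (hR0 _ (hev _ h4)), rfl⟩
    rw [cv_eq, cv_eq, cv_eq, cv_eq]
    have h5 : a₁ * a₂ = a₃ * a₄ := Units.ext h
    have h6 : c a₁ * c a₂ = c a₃ * c a₄ := by rw [← map_mul, ← map_mul, h5]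
    exact congrArg (fun u : Kˣ => (u : K)) h6)
  let f : K → ℕ := fun z => finrank K (Module.End.eigenspace (s : Module.End K V) z)
  have hgf : ∀ z, (R.map (cv c)).count z ≤ f z := by
    intro z
    let F : Finset K := (R.filter fun α => cv c α = z).toFinset
    have h1 : (⨆ α ∈ F, Module.End.maxGenEigenspace (γ : Module.End K V) α : Submodule K V) ≤
        Module.End.eigenspace (s : Module.End K V) z := by
      refine iSup₂_le fun α hα => ?_
      intro v hv
      rw [Module.End.mem_eigenspace_iff]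
      have h2 := (Multiset.mem_filter.mp (Multiset.mem_toFinset.mp hα)).2
      rw [← h2]
      exact hs α v hv
    have h2 := Submodule.finrank_mono h1
    rw [finrank_biSup _ (Module.End.independent_maxGenEigenspace _)] at h2
    refine le_trans (le_of_eq ?_) h2
    have h3 : ∀ α ∈ F, finrank K (Module.End.maxGenEigenspace (γ : Module.End K V) α) =
        (R.filter fun α => cv c α = z).count α := by
      intro α hα
      rw [LinearMap.finrank_maxGenEigenspace_eq, ← Polynomial.count_roots, Multiset.count_filter,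
        if_pos (Multiset.mem_filter.mp (Multiset.mem_toFinset.mp hα)).2]
    rw [Finset.sum_congr rfl h3, Multiset.toFinset_sum_count_eq, Multiset.count_map]
    congr 1
    apply Multiset.filter_congr
    intro a _
    exact eq_comm
  have hcard : R.card = finrank K V := by
    have h1 : (γ : Module.End K V).charpoly.roots.card = (γ : Module.End K V).charpoly.natDegree :=
      (Polynomial.splits_iff_card_roots.mp (IsAlgClosed.splits _))
    rw [LinearMap.charpoly_natDegree] at h1
    exact h1
  let Z : Finset K := (R.map (cv c)).toFinset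
  have heq : ∀ z ∈ Z, (R.map (cv c)).count z = f z := by
    have h0 : ∑ z ∈ Z, (R.map (cv c)).count z = finrank K V := by
      rw [Multiset.toFinset_sum_count_eq, Multiset.card_map, hcard]
    have h1 : ∑ z ∈ Z, (R.map (cv c)).count z = ∑ z ∈ Z, f z := by
      apply le_antisymm
      · exact Finset.sum_le_sum fun z _ => hgf z
      · rw [h0]; exact sum_eigen_le (s : Module.End K V) Z
    exact (Finset.sum_eq_sum_iff_of_le fun z _ => hgf z).mp h1
  refine ⟨c, s, hc, hsL, fun α hα => ⟨hcv0 α, ?_⟩, ?_, ?_⟩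
  · have h1 := heq (cv c α) (Multiset.mem_toFinset.mpr (Multiset.mem_map_of_mem _ hα))
    show f (cv c α) = _
    rw [← h1, Multiset.count_map, classSize]
    congr 1
    apply Multiset.filter_congr
    intro β hβ
    rw [eq_comm]
    exact cv_eq_iff c hc (hR0 α hα) (hR0 β hβ)
  · rw [eq_top_iff, ← Module.End.iSup_maxGenEigenspace_eq_top (γ : Module.End K V)]
    refine iSup_le fun α => fun v hv => ?_
    refine (le_iSup (fun μ => Module.End.eigenspace (s : Module.End K V) μ) (cv c α)) ?_
    rw [Module.End.mem_eigenspace_iff]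
    exact hs α v hv
  · intro z hz
    by_contra hne
    push Not at hne
    have hzZ : z ∉ Z := by
      intro h
      obtain ⟨α, hα, h1⟩ := Multiset.mem_map.mp (Multiset.mem_toFinset.mp h)
      exact hne α hα h1
    have h1 := sum_eigen_le (s : Module.End K V) (insert z Z)
    rw [Finset.sum_insert hzZ] at h1
    have h2 : ∑ z ∈ Z, finrank K (Module.End.eigenspace (s : Module.End K V) z) = finrank K V := by
      rw [← Finset.sum_congr rfl heq, Multiset.toFinset_sum_count_eq, Multiset.card_map, hcard]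
    omega

end Pool.Agent.RM
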