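import Pool.Agent.Lib_helper54.SJ.Mult

/-! The residual lift of an arbitrary element of the normaliser with integral characteristic
polynomial. -/

set_option autoImplicit false

namespace Pool.Agent.RM

open Polynomial IsLocalRing Module Pool.Agent.SJ

variable {K : Type*} [Field K] [IsAlgClosed K] (O : ValuationSubring K)

/-- Roots of unity lift. -/
theorem root_lift' {n : ℕ} (hn : 0 < n) {x : ResidueField O} (hx : x ^ n = 1) :
    ∃ z : O, z ^ n = 1 ∧ residue O z = x := by
  obtain ⟨M, hM, hQM⟩ := exists_multiset (O := O) (X ^ n - C 1) (X ^ n - C 1)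
    (monic_X_pow_sub_C 1 hn.ne') (by simp)
  have h1 : ((M.map fun a => X - C a).prod.map (residue O)).eval x = 0 := by
    rw [← hQM]
    simp [hx]
  rw [Polynomial.map_multiset_prod, Multiset.map_map, eval_multiset_prod, Multiset.map_map,
    Multiset.prod_eq_zero_iff, Multiset.mem_map] at h1
  obtain ⟨z, hz, h2⟩ := h1
  refine ⟨z, ?_, ?_⟩
  · have h3 : (X ^ n - C 1 : Polynomial O).eval z = 0 := by
      rw [hQM, eval_multiset_prod, Multiset.map_map, Multiset.prod_eq_zero_iff, Multiset.mem_map]
      exact ⟨z, hz, by simp⟩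
    simpa [sub_eq_zero] using h3
  · simp only [Function.comp_apply, Polynomial.map_sub, map_X, map_C, eval_sub, eval_X,
      eval_C] at h2
    exact (sub_eq_zero.mp h2).symm

/-- The residue map on units. -/
noncomputable def resU : Oˣ →* (ResidueField O)ˣ := Units.map (residue O).toMonoidHom

theorem ker_div (n : ℕ) (hn : n ≠ 0) (u : (resU O).ker) : ∃ v : (resU O).ker, v ^ n = u := by
  obtain ⟨x, hx⟩ := IsAlgClosed.exists_pow_nat_eq ((u : Oˣ) : K) (Nat.pos_of_ne_zero hn)
  obtain ⟨a, rfl⟩ := mem_of_root O (Q := X ^ n - C ((u : Oˣ) : O))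
    (monic_X_pow_sub_C _ hn) (α := x) (by simp [hx])
  have ha : a ^ n = ((u : Oˣ) : O) := Subtype.ext hx
  have hu1 : residue O ((u : Oˣ) : O) = 1 := by
    have := u.2
    rw [MonoidHom.mem_ker] at this
    exact congrArg Units.val this
  obtain ⟨z, hz, hza⟩ := root_lift' O (Nat.pos_of_ne_zero hn) (x := residue O a) (by
    rw [← map_pow, ha, hu1])
  have hau : IsUnit a := by
    rw [← isUnit_pow_iff hn, ha]
    exact Units.isUnit _
  have hzu : IsUnit z := IsUnit.of_pow_eq_one hz hn
  obtain ⟨a', rfl⟩ := hau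
  obtain ⟨z', rfl⟩ := hzu
  refine ⟨⟨a' * z'⁻¹, ?_⟩, ?_⟩
  · rw [MonoidHom.mem_ker, map_mul, map_inv, mul_inv_eq_one]
    exact Units.ext hza.symm
  · apply Subtype.ext
    apply Units.ext
    show ((a' * z'⁻¹) ^ n : Oˣ).val = _
    rw [mul_pow, inv_pow]
    have h1 : z' ^ n = 1 := Units.ext hz
    rw [h1, inv_one, mul_one, Units.val_pow_eq_pow_val, ha]

/-- A multiplicative section of the reduction, on the units. -/
theorem exists_section : ∃ τ : Oˣ →* Oˣ, (∀ u, residue O (τ u : O) = residue O (u : O)) ∧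
    ∀ u : Oˣ, residue O (u : O) = 1 → τ u = 1 := by
  classical
  let i1 : DivisibleBy (Additive (resU O).ker) ℕ := divisibleByOfSMulRightSurj _ _ (by
    intro n hn u
    obtain ⟨v, hv⟩ := ker_div O n hn (Additive.toMul u)
    exact ⟨Additive.ofMul v, congrArg Additive.ofMul hv⟩)
  let i2 : DivisibleBy (Additive (resU O).ker) ℤ := AddGroup.divisibleByIntOfDivisibleByNat _
  obtain ⟨r, hr⟩ := (Module.Baer.of_divisible (Additive (resU O).ker)).extension_property_addMonoidHom
    (MonoidHom.toAdditive (resU O).ker.subtype) (fun a b h => Subtype.ext h) (AddMonoidHom.id _)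
  let ρ : Oˣ →* (resU O).ker := MonoidHom.toAdditive.symm r
  have hρ : ∀ u : (resU O).ker, ρ (u : Oˣ) = u := fun u =>
    congrArg Additive.toMul (DFunLike.congr_fun hr (Additive.ofMul u))
  let τ : Oˣ →* Oˣ := (MonoidHom.id Oˣ) / ((resU O).ker.subtype.comp ρ)
  refine ⟨τ, fun u => ?_, fun u hu => ?_⟩
  · have h1 : resU O (ρ u : Oˣ) = 1 := (ρ u).2
    have h2 : resU O (τ u) = resU O u := by
      show resU O (u / (ρ u : Oˣ)) = resU O u
      rw [_root_.map_div, h1, div_one]
    exact congrArg Units.val h2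
  · have h1 : u ∈ (resU O).ker := Units.ext hu
    show u / (ρ u : Oˣ) = 1
    have h2 := hρ ⟨u, h1⟩
    rw [h2, div_self']

variable {O}

open Classical in
/-- The representative of an eigenvalue. -/
noncomputable def rc (τ : Oˣ →* Oˣ) (α : K) : K :=
  if h : ∃ u : Oˣ, ((u : O) : K) = α then ((τ h.choose : O) : K) else 1

open Classical in
/-- The representative of a residue class. -/
noncomputable def rr (τ : Oˣ →* Oˣ) (x : ResidueField O) : K :=
  if h : ∃ u : Oˣ, residue O (u : O) = x then ((τ h.choose : O) : K) else 1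

omit [IsAlgClosed K] in
theorem rc_eq (τ : Oˣ →* Oˣ) (u : Oˣ) : rc τ ((u : O) : K) = ((τ u : O) : K) := by
  have hex : ∃ v : Oˣ, ((v : O) : K) = ((u : O) : K) := ⟨u, rfl⟩
  have h1 : hex.choose = u := Units.ext (Subtype.ext hex.choose_spec)
  rw [rc, dif_pos hex, h1]

omit [IsAlgClosed K] in
theorem sec_eq (τ : Oˣ →* Oˣ) (h : ∀ u : Oˣ, residue O (u : O) = 1 → τ u = 1) {u v : Oˣ}
    (huv : residue O (u : O) = residue O (v : O)) : τ u = τ v := by
  have h1 : residue O ((u / v : Oˣ) : O) = 1 := by
    have h2 : resU O (u / v) = 1 := by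
      rw [_root_.map_div, div_eq_one]
      exact Units.ext huv
    exact congrArg Units.val h2
  have h2 := h _ h1
  rw [_root_.map_div, div_eq_one] at h2
  exact h2

omit [IsAlgClosed K] in
theorem rr_eq (τ : Oˣ →* Oˣ) (h : ∀ u : Oˣ, residue O (u : O) = 1 → τ u = 1) (u : Oˣ) :
    rr τ (residue O (u : O)) = ((τ u : O) : K) := by
  have hex : ∃ v : Oˣ, residue O (v : O) = residue O (u : O) := ⟨u, rfl⟩
  rw [rr, dif_pos hex, sec_eq τ h hex.choose_spec]

variable {V : Type*} [AddCommGroup V] [Module K V] [FiniteDimensional K V]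

/-- The residual lift. -/
theorem res_lift (γ : V ≃ₗ[K] V) (L : Submodule K (Module.End K V)) (hL : ∀ x ∈ L, γ.conj x ∈ L)
    (Q : Polynomial O) (hQ : Q.map (algebraMap O K) = (γ : Module.End K V).charpoly)
    (h0 : IsUnit (Q.coeff 0)) :
    ∃ (s : V ≃ₗ[K] V) (τ : ResidueField O → K), (∀ x ∈ L, s.conj x ∈ L) ∧
      (∀ x ∈ (Q.map (residue O)).roots, ∀ y ∈ (Q.map (residue O)).roots, τ x = τ y → x = y) ∧
      ∀ x ∈ (Q.map (residue O)).roots, τ x ≠ 0 ∧
        finrank K (Module.End.eigenspace (s : Module.End K V) (τ x)) =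
          (Q.map (residue O)).rootMultiplicity x := by
  classical
  obtain ⟨σ, hσ1, hσ2⟩ := exists_section O
  have hinj : Function.Injective (algebraMap O K) := IsFractionRing.injective O K
  have hQm : Q.Monic := by
    rw [hinj.monic_map_iff, hQ]
    exact LinearMap.charpoly_monic _
  obtain ⟨M, hM, hQM⟩ := exists_multiset _ Q hQm hQ
  have hQr : Q.map (residue O) = (M.map fun a => X - C (residue O a)).prod := by
    rw [hQM, Polynomial.map_multiset_prod, Multiset.map_map]
    congr 1
    apply Multiset.map_congr rfl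
    intro a _
    simp only [Function.comp_apply, Polynomial.map_sub, map_X, map_C]
  have hroots : (Q.map (residue O)).roots = M.map (residue O) := by
    rw [hQr]
    have := Polynomial.roots_multiset_prod_X_sub_C (M.map (residue O))
    rw [Multiset.map_map] at this
    exact this
  have hMu : ∀ a ∈ M, ∃ u : Oˣ, (u : O) = a := by
    intro a ha
    have h1 : a ∣ Q.coeff 0 := by
      rw [hQM, coeff_zero_eq_eval_zero, eval_multiset_prod, Multiset.map_map]
      have h2 : (-a) ∣ (M.map ((fun x => eval 0 x) ∘ fun a => X - C a)).prod :=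
        Multiset.dvd_prod (Multiset.mem_map.mpr ⟨a, ha, by simp⟩)
      exact (neg_dvd).mp h2
    obtain ⟨u, hu⟩ := isUnit_of_dvd_unit h1 h0
    exact ⟨u, hu⟩
  have hMα : ∀ α, Module.End.maxGenEigenspace (γ : Module.End K V) α ≠ ⊥ →
      ∃ u : Oˣ, ((u : O) : K) = α := by
    intro α hα
    have h1 : 0 < finrank K (Module.End.maxGenEigenspace (γ : Module.End K V) α) := by
      rw [Nat.pos_iff_ne_zero]
      intro h
      exact hα (Submodule.finrank_eq_zero.mp h)
    rw [LinearMap.finrank_maxGenEigenspace_eq] at h1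
    have h2 : α ∈ (γ : Module.End K V).charpoly.roots := by
      rw [← Polynomial.count_roots] at h1
      exact Multiset.count_pos.mp h1
    rw [hM] at h2
    obtain ⟨a, ha, h3⟩ := Multiset.mem_map.mp h2
    obtain ⟨u, rfl⟩ := hMu a ha
    exact ⟨u, h3⟩
  have hz0 : ∀ u : Oˣ, ((u : O) : K) ≠ 0 := by
    intro u hu
    exact u.ne_zero (Subtype.ext hu)
  obtain ⟨s, hs, hsL⟩ := lift γ L hL (rc σ) (by
    intro α hα
    obtain ⟨u, rfl⟩ := hMα α hα
    rw [rc_eq]
    exact hz0 _) (by
    intro α₁ α₂ α₃ α₄ h1 h2 h3 h4 h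
    obtain ⟨a₁, rfl⟩ := hMα _ h1
    obtain ⟨a₂, rfl⟩ := hMα _ h2
    obtain ⟨a₃, rfl⟩ := hMα _ h3
    obtain ⟨a₄, rfl⟩ := hMα _ h4
    rw [rc_eq, rc_eq, rc_eq, rc_eq]
    have h5 : a₁ * a₂ = a₃ * a₄ := Units.ext (Subtype.ext h)
    have h6 : σ a₁ * σ a₂ = σ a₃ * σ a₄ := by rw [← map_mul, ← map_mul, h5]
    exact congrArg (fun u : Oˣ => ((u : O) : K)) h6)
  have hrootu : ∀ x ∈ (Q.map (residue O)).roots, ∃ u : Oˣ, residue O (u : O) = x := by
    intro x hx
    rw [hroots] at hx
    obtain ⟨a, ha, h1⟩ := Multiset.mem_map.mp hx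
    obtain ⟨u, rfl⟩ := hMu a ha
    exact ⟨u, h1⟩
  have hτinj : ∀ x ∈ (Q.map (residue O)).roots, ∀ y ∈ (Q.map (residue O)).roots,
      rr σ x = rr σ y → x = y := by
    intro x hx y hy h
    obtain ⟨u, rfl⟩ := hrootu x hx
    obtain ⟨v, rfl⟩ := hrootu y hy
    rw [rr_eq σ hσ2, rr_eq σ hσ2] at h
    rw [← hσ1 u, ← hσ1 v]
    congr 1
    exact Subtype.ext h
  -- the numbers
  let g : ResidueField O → ℕ := fun x => M.countP (fun a => residue O a = x)
  let f : ResidueField O → ℕ := fun x =>
    finrank K (Module.End.eigenspace (s : Module.End K V) (rr σ x))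
  have hgr : ∀ x, g x = (Q.map (residue O)).rootMultiplicity x := by
    intro x
    show M.countP _ = _
    rw [← Polynomial.count_roots, hroots, Multiset.count_map, Multiset.countP_eq_card_filter]
    congr 1
    apply Multiset.filter_congr
    intro a _
    exact eq_comm
  have hgf : ∀ x ∈ (Q.map (residue O)).roots, g x ≤ f x := by
    intro x hx
    obtain ⟨w, rfl⟩ := hrootu x hx
    let R := (γ : Module.End K V).charpoly.roots
    let F : Finset K := (R.filter fun α => rc σ α = rr σ (residue O (w : O))).toFinset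
    have h1 : (⨆ α ∈ F, Module.End.maxGenEigenspace (γ : Module.End K V) α : Submodule K V) ≤
        Module.End.eigenspace (s : Module.End K V) (rr σ (residue O (w : O))) := by
      refine iSup₂_le fun α hα => ?_
      intro v hv
      rw [Module.End.mem_eigenspace_iff]
      have h2 := (Multiset.mem_filter.mp (Multiset.mem_toFinset.mp hα)).2
      rw [← h2]
      exact hs α v hv
    have h2 := Submodule.finrank_mono h1
    rw [finrank_biSup _ (Module.End.independent_maxGenEigenspace _)] at h2
    refine le_trans (le_of_eq ?_) h2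
    have h3 : ∀ α ∈ F, finrank K (Module.End.maxGenEigenspace (γ : Module.End K V) α) =
        (R.filter fun α => rc σ α = rr σ (residue O (w : O))).count α := by
      intro α hα
      rw [LinearMap.finrank_maxGenEigenspace_eq, ← Polynomial.count_roots, Multiset.count_filter,
        if_pos (Multiset.mem_filter.mp (Multiset.mem_toFinset.mp hα)).2]
    rw [Finset.sum_congr rfl h3, Multiset.toFinset_sum_count_eq]
    show M.countP _ = _
    have h4 : R = M.map (algebraMap O K) := hM
    rw [h4, Multiset.filter_map, Multiset.card_map, Multiset.countP_eq_card_filter]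
    congr 1
    apply Multiset.filter_congr
    intro a ha
    obtain ⟨u, rfl⟩ := hMu a ha
    have h6 : rc σ (algebraMap O K (u : O)) = ((σ u : O) : K) := rc_eq σ u
    rw [Function.comp_apply, h6, rr_eq σ hσ2]
    constructor
    · intro h
      rw [sec_eq σ hσ2 h]
    · intro h
      rw [← hσ1 u, ← hσ1 w]
      congr 1
      exact Subtype.ext h
  have hcard : M.card = finrank K V := by
    have h1 : (γ : Module.End K V).charpoly.roots.card = (γ : Module.End K V).charpoly.natDegree :=
      (Polynomial.splits_iff_card_roots.mp (IsAlgClosed.splits _))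
    rw [hM, Multiset.card_map, LinearMap.charpoly_natDegree] at h1
    exact h1
  let Z : Finset (ResidueField O) := (Q.map (residue O)).roots.toFinset
  have hZ : ∀ z, z ∈ Z ↔ z ∈ (Q.map (residue O)).roots := fun z => Multiset.mem_toFinset
  have hsum : ∑ z ∈ Z, g z = finrank K V := by
    have h1 : ∀ z ∈ Z, g z = (Q.map (residue O)).roots.count z := fun z _ => by
      rw [hgr, Polynomial.count_roots]
    rw [Finset.sum_congr rfl h1, Multiset.toFinset_sum_count_eq, hroots, Multiset.card_map, hcard]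
  have hsumf : ∑ z ∈ Z, f z ≤ finrank K V := by
    have h1 := sum_eigen_le (s : Module.End K V) (Z.image (fun z => rr σ z))
    rw [Finset.sum_image fun z hz w hw h => hτinj z ((hZ z).mp hz) w ((hZ w).mp hw) h] at h1
    exact h1
  have heq : ∀ z ∈ Z, g z = f z := by
    have h1 : ∑ z ∈ Z, g z = ∑ z ∈ Z, f z := by
      apply le_antisymm
      · exact Finset.sum_le_sum fun z hz => hgf z ((hZ z).mp hz)
      · rw [hsum]; exact hsumf
    exact (Finset.sum_eq_sum_iff_of_le fun z hz => hgf z ((hZ z).mp hz)).mp h1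
  refine ⟨s, rr σ, hsL, hτinj, fun x hx => ⟨?_, ?_⟩⟩
  · obtain ⟨u, rfl⟩ := hrootu x hx
    rw [rr_eq σ hσ2]
    exact hz0 _
  · rw [← hgr, heq x ((hZ x).mpr hx)]

/-- The corank of s minus an eigenvalue. -/
theorem finrank_range_sub (s : Module.End K V) (c : K) :
    finrank K (LinearMap.range (s - c • (1 : Module.End K V))) =
      finrank K V - finrank K (Module.End.eigenspace s c) := by
  have h1 := LinearMap.finrank_range_add_finrank_ker (s - c • (1 : Module.End K V))
  have h2 : LinearMap.ker (s - c • (1 : Module.End K V)) = Module.End.eigenspace s c := by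
    ext v
    rw [LinearMap.mem_ker, Module.End.mem_eigenspace_iff, LinearMap.sub_apply,
      LinearMap.smul_apply, Module.End.one_apply, sub_eq_zero]
  rw [h2] at h1
  omega

end Pool.Agent.RM
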