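import Pool.Agent.Lib_helper54.RM.Clus
import Pool.Agent.Lib_helper48.OU.U27

/-! A square zero element of small rank from an element which is a scalar up to small rank, and the
consequences of an element of rank at most two. -/

set_option autoImplicit false
set_option linter.unusedSectionVars false

namespace Pool.Agent.RM

open Module LieModule

attribute [local instance 100] LieRing.ofAssociativeRing

section alg

variable {K V : Type*} [Field K] [AddCommGroup V] [Module K V] [FiniteDimensional K V]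

theorem rank_mul_le (A Y B : Module.End K V) :
    finrank K (LinearMap.range (A * Y * B)) ≤ finrank K (LinearMap.range Y) := by
  have h1 : LinearMap.range (A * Y * B) ≤ (LinearMap.range Y).map A := by
    rintro _ ⟨v, rfl⟩
    exact ⟨Y (B v), ⟨B v, rfl⟩, rfl⟩
  exact (Submodule.finrank_mono h1).trans (Submodule.finrank_map_le A _)

end alg

section ring

variable {R : Type*} [Ring R] {p q : R}

/-- The part of a commutator between the two projections. -/
theorem comm_part (h1 : p + q = 1) (h2 : p * q = 0) (h3 : q * p = 0) (W Y : R) :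
    (p * W * q) * Y - Y * (p * W * q) = p * ((p * W * q) * Y - Y * (p * W * q)) * q +
      ((p * W * q) * (q * Y * p) - (q * Y * p) * (p * W * q)) := by
  have hp : p * p = p := by
    have := congrArg (p * ·) h1
    simp only [mul_add, mul_one, h2, add_zero] at this
    exact this
  have hq : q * q = q := by
    have := congrArg (q * ·) h1
    simp only [mul_add, mul_one, h3, zero_add] at this
    exact this
  obtain ⟨M, hM⟩ : ∃ M, M = p * W * q := ⟨_, rfl⟩
  have hMq : M * q = M := by rw [hM, mul_assoc, hq]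
  have hMp : M * p = 0 := by rw [hM, mul_assoc, h3, mul_zero]
  have hpM : p * M = M := by rw [hM, ← mul_assoc, ← mul_assoc, hp]
  have hqM : q * M = 0 := by rw [hM, ← mul_assoc, ← mul_assoc, h3, zero_mul, zero_mul]
  rw [← hM]
  have e1 : p * (M * Y - Y * M) * q = M * Y * q - p * Y * M := by
    rw [mul_sub, sub_mul, ← mul_assoc, hpM, mul_assoc p (Y * M) q, mul_assoc Y M q, hMq,
      ← mul_assoc]
  have e2 : M * (q * Y * p) = M * Y * p := by
    rw [← mul_assoc, ← mul_assoc, hMq]
  have e3 : q * Y * p * M = q * Y * M := by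
    rw [mul_assoc, hpM]
  rw [e1, e2, e3]
  have e4 : M * Y = M * Y * p + M * Y * q := by rw [← mul_add, h1, mul_one]
  have e5 : Y * M = p * Y * M + q * Y * M := by rw [mul_assoc, mul_assoc, ← add_mul, h1, one_mul]
  rw [e5]
  nth_rewrite 1 [e4]
  abel

end ring

variable {K : Type*} [Field K] [CharZero K] {g : Type*} [LieRing g] [LieAlgebra K g]
  {V : Type*} [AddCommGroup V] [Module K V] [FiniteDimensional K V]
  [LieRingModule g V] [LieModule K g V]

theorem proj_elem (h : g) (hh : ∀ v : V, ⁅h, ⁅h, v⁆⁆ = (1/4 : K) • v) (w : g) :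
    ∃ w' w'' : g, toEnd K g V w' = ((1/2 : K) • (1 : Module.End K V) + toEnd K g V h) *
      toEnd K g V w * ((1/2 : K) • (1 : Module.End K V) - toEnd K g V h) ∧
      toEnd K g V w'' = ((1/2 : K) • (1 : Module.End K V) - toEnd K g V h) *
      toEnd K g V w * ((1/2 : K) • (1 : Module.End K V) + toEnd K g V h) := by
  have hk : (1/4 : K) = (1/2) * (1/2) := by norm_num
  refine ⟨(1/2 : K) • (⁅h, ⁅h, w⁆⁆ + ⁅h, w⁆), (1/2 : K) • (⁅h, ⁅h, w⁆⁆ - ⁅h, w⁆), ?_, ?_⟩
  · ext v
    simp only [toEnd_apply_apply, Module.End.mul_apply, LinearMap.add_apply, LinearMap.sub_apply,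
      LinearMap.smul_apply, Module.End.one_apply, smul_lie, add_lie, lie_lie, lie_sub, lie_smul,
      lie_add, hh, hk]
    module
  · ext v
    simp only [toEnd_apply_apply, Module.End.mul_apply, LinearMap.add_apply, LinearMap.sub_apply,
      LinearMap.smul_apply, Module.End.one_apply, smul_lie, sub_lie, lie_lie, lie_sub, lie_smul,
      lie_add, hh, hk]
    module

/-- An element of small rank up to scalars gives a square zero element of small rank. -/
theorem sq_elem [IsAlgClosed K] [LieModule.IsIrreducible K g V] (hs : Pool.Agent.OU.PSimple K g V)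
    (h : g) (hh : ∀ v : V, ⁅h, ⁅h, v⁆⁆ = (1/4 : K) • v)
    (hns : ¬ ∃ c : K, ∀ v : V, ⁅h, v⁆ = c • v) (x : g) (c : K)
    (hx : ¬ ∃ c : K, ∀ v : V, ⁅x, v⁆ = c • v) {ρ : ℕ}
    (hρ : finrank K (LinearMap.range (toEnd K g V x - c • (1 : Module.End K V))) ≤ ρ) :
    ∃ z : g, (∀ v : V, ⁅z, ⁅z, v⁆⁆ = 0) ∧ (∃ v : V, ⁅z, v⁆ ≠ 0) ∧
      finrank K (LinearMap.range (toEnd K g V z)) ≤ ρ := by
  have hnt : Nontrivial V := nontrivial_of_isIrreducible K g V
  obtain ⟨H, hH⟩ : ∃ H, H = toEnd K g V h := ⟨_, rfl⟩
  obtain ⟨p, hp⟩ : ∃ p, p = (1/2 : K) • (1 : Module.End K V) + H := ⟨_, rfl⟩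
  obtain ⟨q, hq⟩ : ∃ q, q = (1/2 : K) • (1 : Module.End K V) - H := ⟨_, rfl⟩
  obtain ⟨Y, hY⟩ : ∃ Y, Y = toEnd K g V x - c • (1 : Module.End K V) := ⟨_, rfl⟩
  rw [← hY] at hρ
  have hH2 : H * H = (1/4 : K) • (1 : Module.End K V) := by
    rw [hH]; exact LinearMap.ext fun v => hh v
  have hpq1 : p + q = 1 := by
    rw [hp, hq]
    have : (1/2 : K) • (1 : Module.End K V) + H + ((1/2 : K) • (1 : Module.End K V) - H) =
      ((1/2 : K) + 1/2) • (1 : Module.End K V) := by module
    rw [this]; norm_num
  have hHpq : H = p - (1/2 : K) • (1 : Module.End K V) := by rw [hp]; abel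
  have hpq : p * q = 0 := by
    rw [hp, hq, add_mul, mul_sub, mul_sub, hH2]
    simp only [smul_mul_assoc, one_mul, mul_smul_comm, mul_one]
    module
  have hqp : q * p = 0 := by
    rw [hp, hq, sub_mul, mul_add, mul_add, hH2]
    simp only [smul_mul_assoc, one_mul, mul_smul_comm, mul_one]
    module
  have hel : ∀ w : g, ∃ w' w'' : g, toEnd K g V w' = p * toEnd K g V w * q ∧
      toEnd K g V w'' = q * toEnd K g V w * p := by
    intro w
    rw [hp, hq, hH]
    exact proj_elem h hh w
  -- the general conclusion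
  have fin : ∀ (z : g) (A B : Module.End K V), toEnd K g V z = A * Y * B → toEnd K g V z ≠ 0 →
      toEnd K g V z * toEnd K g V z = 0 → ∃ z : g, (∀ v : V, ⁅z, ⁅z, v⁆⁆ = 0) ∧
        (∃ v : V, ⁅z, v⁆ ≠ 0) ∧ finrank K (LinearMap.range (toEnd K g V z)) ≤ ρ := by
    intro z A B hz hz0 hz2
    refine ⟨z, fun v => LinearMap.congr_fun hz2 v, ?_, ?_⟩
    · by_contra hne
      push Not at hne
      exact hz0 (LinearMap.ext fun v => hne v)
    · rw [hz]
      exact (rank_mul_le A Y B).trans hρ
  have hYX : ∀ A B : Module.End K V, A * B = 0 → A * Y * B = A * toEnd K g V x * B := by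
    intro A B hAB
    rw [hY, mul_sub, sub_mul, mul_smul_comm, mul_one, smul_mul_assoc, hAB, smul_zero, sub_zero]
  by_cases h1 : p * Y * q = 0
  swap
  · obtain ⟨z, -, hz, -⟩ := hel x
    rw [← hYX p q hpq] at hz
    refine fin z p q hz (by rw [hz]; exact h1) ?_
    rw [hz, mul_assoc, ← mul_assoc q (p * Y) q, ← mul_assoc q p Y, hqp, zero_mul, zero_mul,
      mul_zero]
  by_cases h2 : q * Y * p = 0
  swap
  · obtain ⟨-, z, -, hz⟩ := hel x
    rw [← hYX q p hqp] at hz
    refine fin z q p hz (by rw [hz]; exact h2) ?_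
    rw [hz, mul_assoc, ← mul_assoc p (q * Y) p, ← mul_assoc p q Y, hpq, zero_mul, zero_mul,
      mul_zero]
  -- Y commutes with the projections
  have hpY : p * Y = Y * p := by
    have e1 : p * Y = p * Y * p := by
      calc p * Y = p * Y * (p + q) := by rw [hpq1, mul_one]
        _ = p * Y * p := by rw [mul_add, h1, add_zero]
    have e2 : Y * p = p * Y * p := by
      calc Y * p = (p + q) * (Y * p) := by rw [hpq1, one_mul]
        _ = p * Y * p := by rw [add_mul, ← mul_assoc, ← mul_assoc, h2, add_zero]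
    rw [e1, ← e2]
  have hqY : q * Y = Y * q := by
    have hq1 : q = 1 - p := by rw [← hpq1]; abel
    rw [hq1, sub_mul, mul_sub, one_mul, mul_one, hpY]
  have hpp : p * p = p := by
    have := congrArg (p * ·) hpq1
    simp only [mul_add, mul_one, hpq, add_zero] at this
    exact this
  have hqq : q * q = q := by
    have := congrArg (q * ·) hpq1
    simp only [mul_add, mul_one, hqp, zero_add] at this
    exact this
  -- the second case
  have second : ∀ (P Q : Module.End K V), P * P = P → Q * Q = Q → P * Q = 0 → Q * P = 0 →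
      P * Y = Y * P → Q * Y = Y * Q → P * Y * Q = 0 →
      ∀ (w' : g) (W : Module.End K V), toEnd K g V w' = P * W * Q →
        (P * W * Q) * Y ≠ Y * (P * W * Q) →
        ∃ z : g, (∀ v : V, ⁅z, ⁅z, v⁆⁆ = 0) ∧ (∃ v : V, ⁅z, v⁆ ≠ 0) ∧
          finrank K (LinearMap.range (toEnd K g V z)) ≤ ρ := by
    intro P Q hPP hQQ hPQ hQP hPY hQY hPYQ w' W hw' hne
    obtain ⟨M, hM⟩ : ∃ M, M = P * W * Q := ⟨_, rfl⟩
    rw [← hM] at hw' hne
    have hMQ : M * Q = M := by rw [hM, mul_assoc, hQQ]
    have hMP : M * P = 0 := by rw [hM, mul_assoc, hQP, mul_zero]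
    have hPM : P * M = M := by rw [hM, ← mul_assoc, ← mul_assoc, hPP]
    have hQM : Q * M = 0 := by rw [hM, ← mul_assoc, ← mul_assoc, hQP, zero_mul, zero_mul]
    have hz : toEnd K g V ⁅w', x⁆ = M * Y - Y * M := by
      have e1 : toEnd K g V ⁅w', x⁆ = toEnd K g V w' * toEnd K g V x -
          toEnd K g V x * toEnd K g V w' := (toEnd K g V).map_lie w' x
      rw [e1, hw', hY, mul_sub, sub_mul, mul_smul_comm, mul_one, smul_mul_assoc, one_mul]
      abel
    have hMYM : M * Y * M = 0 := by
      calc M * Y * M = (M * Q) * Y * M := by rw [hMQ]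
        _ = M * (Q * Y) * M := by rw [mul_assoc M Q Y]
        _ = M * (Y * Q) * M := by rw [hQY]
        _ = M * Y * (Q * M) := by simp only [mul_assoc]
        _ = 0 := by rw [hQM, mul_zero]
    have hz' : M * Y - Y * M = (P * (1 + M)) * Y * ((1 - M) * Q) := by
      have e0 : P * (1 + M) = P + M := by rw [mul_add, mul_one, hPM]
      have e0' : (1 - M) * Q = Q - M := by rw [sub_mul, one_mul, hMQ]
      have e1 : P * Y * M = Y * M := by rw [hPY, mul_assoc, hPM]
      have e2 : M * Y * Q = M * Y := by rw [mul_assoc, ← hQY, ← mul_assoc, hMQ]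
      rw [e0, e0', add_mul, add_mul, mul_sub, mul_sub, hPYQ, e1, e2, hMYM]
      abel
    refine fin ⁅w', x⁆ _ _ (hz.trans hz') (by rw [hz]; exact sub_ne_zero.mpr hne) ?_
    rw [hz]
    have e1 : M * M = 0 := by
      calc M * M = (M * Q) * M := by rw [hMQ]
        _ = 0 := by rw [mul_assoc, hQM, mul_zero]
    have e2 : M * Y * (Y * M) = 0 := by
      calc M * Y * (Y * M) = (M * Q) * Y * (Y * M) := by rw [hMQ]
        _ = M * (Q * Y) * (Y * M) := by rw [mul_assoc M Q Y]
        _ = M * (Y * Q) * (Y * M) := by rw [hQY]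
        _ = M * Y * ((Q * Y) * M) := by simp only [mul_assoc]
        _ = M * Y * ((Y * Q) * M) := by rw [hQY]
        _ = M * Y * (Y * (Q * M)) := by simp only [mul_assoc]
        _ = 0 := by rw [hQM, mul_zero, mul_zero]
    rw [sub_mul, mul_sub, mul_sub, ← mul_assoc (M * Y) M Y, hMYM, zero_mul, e2, sub_self, zero_sub,
      neg_eq_zero]
    have e3 : Y * M * (M * Y) = 0 := by
      rw [mul_assoc, ← mul_assoc M M Y, e1, zero_mul, mul_zero]
    have e4 : Y * M * (Y * M) = 0 := by
      rw [mul_assoc, ← mul_assoc M Y M, hMYM, mul_zero]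
    rw [e3, e4, sub_zero]
  by_cases h3 : ∀ w : g, (p * toEnd K g V w * q) * Y = Y * (p * toEnd K g V w * q)
  swap
  · push Not at h3
    obtain ⟨w, hw⟩ := h3
    obtain ⟨w', -, hw', -⟩ := hel w
    exact second p q hpp hqq hpq hqp hpY hqY h1 w' _ hw' hw
  by_cases h4 : ∀ w : g, (q * toEnd K g V w * p) * Y = Y * (q * toEnd K g V w * p)
  swap
  · push Not at h4
    obtain ⟨w, hw⟩ := h4
    obtain ⟨-, w', -, hw'⟩ := hel w
    exact second q p hqq hpp hqp hpq hqY hpY h2 w' _ hw' hw
  -- the third case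
  exfalso
  let Cen : Set (Module.End K V) := {e | H * e = e * H ∧
    (∀ w : g, (p * toEnd K g V w * q) * e = e * (p * toEnd K g V w * q)) ∧
    ∀ w : g, (q * toEnd K g V w * p) * e = e * (q * toEnd K g V w * p)}
  have hlie : ∀ a b : g, toEnd K g V ⁅a, b⁆ = toEnd K g V a * toEnd K g V b -
      toEnd K g V b * toEnd K g V a := fun a b => (toEnd K g V).map_lie a b
  have jac : ∀ A B e : Module.End K V, A * e = e * A → (A * B - B * A) * e = e * (A * B - B * A) →
      A * (B * e - e * B) = (B * e - e * B) * A := by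
    intro A B e h5 h6
    rw [sub_mul, mul_sub] at h6
    rw [mul_sub, sub_mul]
    have e1 : A * (e * B) = e * (A * B) := by rw [← mul_assoc, h5, mul_assoc]
    have e2 : B * e * A = B * A * e := by rw [mul_assoc, ← h5, mul_assoc]
    rw [e1, e2, ← mul_assoc A B e, mul_assoc e B A]
    have e3 : A * B * e - e * (A * B) = (A * B * e - B * A * e) + B * A * e - e * (A * B) := by
      abel
    rw [e3, h6]
    abel
  have two_comm : ∀ A B e : Module.End K V, A * e = e * A → B * e = e * B →
      (A * B) * e = e * (A * B) := by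
    intro A B e h5 h6
    rw [mul_assoc, h6, ← mul_assoc, h5, mul_assoc]
  have hCst : ∀ y : g, ∀ e ∈ Cen, toEnd K g V y * e - e * toEnd K g V y ∈ Cen := by
    rintro y e ⟨he1, he2, he3⟩
    obtain ⟨Y', hY'⟩ : ∃ Y', Y' = toEnd K g V y := ⟨_, rfl⟩
    rw [← hY']
    refine ⟨jac H Y' e he1 ?_, fun w => jac _ Y' e (he2 w) ?_, fun w => jac _ Y' e (he3 w) ?_⟩
    · have e1 : H * Y' - Y' * H = p * Y' * q - q * Y' * p := by
        have e2 : p * Y' * q = p * Y' - p * Y' * p := by
          have : p * Y' = p * Y' * (p + q) := by rw [hpq1, mul_one]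
          nth_rewrite 2 [this]
          rw [mul_add]; abel
        have e3 : q * Y' * p = Y' * p - p * Y' * p := by
          have : Y' * p = (p + q) * (Y' * p) := by rw [hpq1, one_mul]
          rw [this, add_mul, ← mul_assoc, ← mul_assoc]; abel
        rw [e2, e3, hHpq, sub_mul, mul_sub, smul_mul_assoc, one_mul, mul_smul_comm, mul_one]
        abel
      rw [e1, sub_mul, mul_sub, hY', he2 y, he3 y]
    · obtain ⟨w', -, hw', -⟩ := hel w
      have e1 : p * toEnd K g V w * q * Y' - Y' * (p * toEnd K g V w * q) = toEnd K g V ⁅w', y⁆ := by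
        rw [hlie, hw', hY']
      have e2 := comm_part hpq1 hpq hqp (toEnd K g V w) Y'
      rw [e1] at e2
      rw [e1, e2, add_mul, mul_add, he2 ⁅w', y⁆, sub_mul, mul_sub]
      rw [two_comm _ _ e (he2 w) (by rw [hY']; exact he3 y),
        two_comm _ _ e (by rw [hY']; exact he3 y) (he2 w)]
    · obtain ⟨-, w', -, hw'⟩ := hel w
      have e1 : q * toEnd K g V w * p * Y' - Y' * (q * toEnd K g V w * p) = toEnd K g V ⁅w', y⁆ := by
        rw [hlie, hw', hY']
      have e2 := comm_part (p := q) (q := p) (by rw [add_comm]; exact hpq1) hqp hpq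
        (toEnd K g V w) Y'
      rw [e1] at e2
      rw [e1, e2, add_mul, mul_add, he3 ⁅w', y⁆, sub_mul, mul_sub]
      rw [two_comm _ _ e (he3 w) (by rw [hY']; exact he2 y),
        two_comm _ _ e (by rw [hY']; exact he2 y) (he3 w)]
  let I : LieIdeal K g :=
    { carrier := {m | ∀ e ∈ Cen, toEnd K g V m * e = e * toEnd K g V m}
      add_mem' := fun {a b} ha hb e he => by
        rw [map_add, add_mul, mul_add, ha e he, hb e he]
      zero_mem' := fun e _ => by rw [map_zero, zero_mul, mul_zero]
      smul_mem' := fun t m hm e he => by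
        rw [map_smul, smul_mul_assoc, mul_smul_comm, hm e he]
      lie_mem := fun {y m} hm e he => by
        have h5 := hm e he
        have h6 := hm _ (hCst y e he)
        rw [hlie, sub_mul, mul_sub]
        rw [mul_sub, sub_mul] at h6
        have e1 : toEnd K g V m * (e * toEnd K g V y) = e * (toEnd K g V m * toEnd K g V y) := by
          rw [← mul_assoc, h5, mul_assoc]
        have e2 : toEnd K g V y * e * toEnd K g V m = toEnd K g V y * toEnd K g V m * e := by
          rw [mul_assoc, ← h5, mul_assoc]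
        rw [e1, e2, ← mul_assoc (toEnd K g V m) (toEnd K g V y) e,
          mul_assoc e (toEnd K g V y) (toEnd K g V m)] at h6
        have h7 : toEnd K g V y * toEnd K g V m * e - toEnd K g V m * toEnd K g V y * e -
            (e * (toEnd K g V y * toEnd K g V m) - e * (toEnd K g V m * toEnd K g V y)) = 0 := by
          rw [← sub_eq_zero] at h6
          rw [← neg_eq_zero, ← h6]
          abel
        exact sub_eq_zero.mp h7 }
  have hYC : Y ∈ Cen := by
    refine ⟨?_, h3, h4⟩
    rw [hHpq, sub_mul, mul_sub, hpY, smul_mul_assoc, one_mul, mul_smul_comm, mul_one]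
  have hhI : h ∈ I := fun e he => by rw [← hH]; exact he.1
  rcases hs I with h5 | h5
  · exact hns (h5 h hhI)
  · -- Y commutes with everything
    have hall : ∀ z : g, toEnd K g V z * Y = Y * toEnd K g V z := by
      intro z
      obtain ⟨m, hm, t, ht⟩ := h5 z
      have e1 : toEnd K g V z = toEnd K g V m + t • (1 : Module.End K V) :=
        LinearMap.ext fun v => ht v
      rw [e1, add_mul, mul_add, hm Y hYC, smul_mul_assoc, one_mul, mul_smul_comm, mul_one]
    obtain ⟨t, ht⟩ := Module.End.exists_eigenvalue Y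
    obtain ⟨v, hv⟩ := ht.exists_hasEigenvector
    let E : LieSubmodule K g V :=
      { Module.End.eigenspace Y t with
        lie_mem := by
          intro z u hu
          have hu' : Y u = t • u := Module.End.mem_eigenspace_iff.mp hu
          refine Module.End.mem_eigenspace_iff.mpr ?_
          have e1 := LinearMap.congr_fun (hall z) u
          have e2 : ⁅z, Y u⁆ = Y ⁅z, u⁆ := e1
          rw [← e2, hu', lie_smul] }
    have hE : E = ⊤ := by
      refine (eq_bot_or_eq_top E).resolve_left fun h6 => hv.2 ?_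
      have h7 : v ∈ E := hv.1
      rw [h6] at h7
      simpa using h7
    apply hx
    refine ⟨t + c, fun u => ?_⟩
    have h6 : u ∈ E := by rw [hE]; exact LieSubmodule.mem_top u
    have h7 : Y u = t • u := Module.End.mem_eigenspace_iff.mp h6
    rw [hY, LinearMap.sub_apply, LinearMap.smul_apply, Module.End.one_apply] at h7
    have h8 : ⁅x, u⁆ = toEnd K g V x u := rfl
    rw [h8, sub_eq_iff_eq_add.mp h7, add_smul]

end Pool.Agent.RM
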