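import Pool.Agent.Lib_helper54.RM.Diag
import Pool.Agent.Lib_helper54.SJ.Comm

/-! Diagonalisable elements normalising an isotypic action: the multiplicities are those of a
tensor product. -/

set_option autoImplicit false
set_option linter.unusedSectionVars false

namespace Pool.Agent.RM

open Module Pool.Agent.SJ

section generic

variable {K V A : Type*} [Field K] [AddCommGroup V] [Module K V]
  [Ring A] [Algebra K A] [Module A V] [IsScalarTower K A V]

theorem mapS_simple (s : V ≃ₗ[K] V) (hs : ∀ a : A, ∃ a' : A, ∀ v, s (a • v) = a' • s v)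
    (hs' : ∀ a : A, ∃ a' : A, ∀ v, a • s v = s (a' • v)) (N : Submodule A V)
    [hN : IsSimpleModule A N] : IsSimpleModule A (mapS s hs' N) := by
  rw [isSimpleModule_iff_isAtom]
  have hat : IsAtom N := isSimpleModule_iff_isAtom.mp hN
  have hsy : ∀ a : A, ∃ a' : A, ∀ v, a • s.symm v = s.symm (a' • v) := by
    intro a
    obtain ⟨a', ha'⟩ := hs a
    refine ⟨a', fun v => ?_⟩
    apply s.injective
    rw [ha', s.apply_symm_apply, s.apply_symm_apply]
  refine ⟨?_, ?_⟩
  · intro h
    apply hat.1
    rw [eq_bot_iff]
    intro n hn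
    have h1 : s n ∈ mapS s hs' N := ⟨n, hn, rfl⟩
    rw [h, Submodule.mem_bot, s.map_eq_zero_iff] at h1
    exact h1
  · intro W hW
    have h1 : mapS s.symm hsy W < N := by
      refine lt_of_le_of_ne ?_ ?_
      · rintro _ ⟨w, hw, rfl⟩
        obtain ⟨n, hn, h2⟩ := hW.le hw
        have h3 : s.symm w = n := by
          rw [LinearEquiv.symm_apply_eq]
          exact h2.symm
        show s.symm w ∈ N
        rw [h3]
        exact hn
      · intro h
        apply hW.ne
        apply le_antisymm hW.le
        rintro _ ⟨n, hn, rfl⟩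
        have hn' : n ∈ mapS s.symm hsy W := by rw [h]; exact hn
        obtain ⟨w, hw, h2⟩ := hn'
        have h3 : s n = w := by
          rw [← h2]
          exact s.apply_symm_apply w
        show s n ∈ W
        rw [h3]
        exact hw
    have h2 := hat.2 _ h1
    rw [eq_bot_iff]
    intro w hw
    have h3 : s.symm w ∈ mapS s.symm hsy W := ⟨w, hw, rfl⟩
    rw [h2, Submodule.mem_bot, LinearEquiv.map_eq_zero_iff] at h3
    exact h3

theorem tensor_form [IsAlgClosed K] [FiniteDimensional K V] (N : Submodule A V)
    [hN : IsSimpleModule A N] (hT : isotypicComponent A V N = ⊤) {m : ℕ}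
    (hd : finrank K V = m * finrank K N) (hE : finrank K (N →ₗ[A] V) ≤ m)
    (s : V ≃ₗ[K] V) (hs : ∀ a : A, ∃ a' : A, ∀ v, s (a • v) = a' • s v)
    (hs' : ∀ a : A, ∃ a' : A, ∀ v, a • s v = s (a' • v)) (hdiag : Diag (s : Module.End K V))
    [DecidableEq K] :
    ∃ (x : Fin (finrank K N) → K) (y : Fin m → K), ∀ ζ : K,
      finrank K (Module.End.eigenspace (s : Module.End K V) ζ) =
        (Finset.univ.filter fun p : Fin (finrank K N) × Fin m => x p.1 * y p.2 = ζ).card := by
  have hnt : Nontrivial N := IsSimpleModule.nontrivial A N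
  have hfN : Module.Finite K N :=
    Module.Finite.of_injective (N.subtype.restrictScalars K) N.subtype_injective
  have hI := IsIsotypicOfType.of_isotypicComponent_eq_top hT
  have hsim := mapS_simple s hs hs' N
  obtain ⟨ψ'⟩ := hI (mapS s hs' N)
  -- the operator T
  let sN : N →ₗ[K] mapS s hs' N :=
    { toFun := fun n => ⟨s n, ⟨n, n.2, rfl⟩⟩
      map_add' := fun a b => Subtype.ext (by simp)
      map_smul' := fun c a => Subtype.ext (by simp) }
  let T₀ : N →ₗ[K] N := (ψ'.toLinearMap.restrictScalars K).comp sN
  have hT₀ : ∀ n : N, ((ψ'.symm (T₀ n) : mapS s hs' N) : V) = s n := by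
    intro n
    show ((ψ'.symm (ψ' (sN n)) : mapS s hs' N) : V) = s n
    rw [ψ'.symm_apply_apply]
    rfl
  have hT₀i : Function.Injective T₀ := by
    intro a b hab
    have h1 := hT₀ a
    rw [hab, hT₀ b] at h1
    exact Subtype.ext (s.injective h1).symm
  let T : N ≃ₗ[K] N := LinearEquiv.ofInjectiveEndo T₀ hT₀i
  have hTψ : ∀ n : N, ((ψ'.symm (T n) : mapS s hs' N) : V) = s n := hT₀
  have hTa : ∀ a a' : A, (∀ v : V, a • s v = s (a' • v)) → ∀ n : N, T (a' • n) = a • T n := by
    intro a a' h n
    apply ψ'.symm.injective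
    apply Subtype.ext
    rw [hTψ, map_smul]
    show s ((a' • n : N) : V) = a • ((ψ'.symm (T n) : mapS s hs' N) : V)
    rw [hTψ, h]
    rfl
  -- the operator R
  let R : Module.End K (N →ₗ[A] V) :=
    { toFun := fun f =>
        { toFun := fun n => s (f (T.symm n))
          map_add' := fun a b => by rw [map_add, map_add, map_add]
          map_smul' := fun a n => by
            obtain ⟨a', ha'⟩ := hs' a
            have h1 : T.symm (a • n) = a' • T.symm n := by
              rw [LinearEquiv.symm_apply_eq, hTa a a' ha', T.apply_symm_apply]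
            rw [h1, map_smul, RingHom.id_apply, ha'] }
      map_add' := fun f g => by
        ext n
        exact map_add s _ _
      map_smul' := fun c f => by
        ext n
        exact map_smul s c _ }
  have hR : ∀ (f : N →ₗ[A] V) (n : N), R f (T n) = s (f n) := by
    intro f n
    show s (f (T.symm (T n))) = s (f n)
    rw [T.symm_apply_apply]
  -- T has an eigenvector
  have hev : ∀ (n : N), n ≠ 0 → ∃ ev : (N →ₗ[A] V) →ₗ[K] V, Function.Injective ev ∧
      ∀ f, ev f = f n := by
    intro n hn
    refine ⟨{ toFun := fun f => f n, map_add' := fun f g => rfl, map_smul' := fun c f => rfl },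
      ?_, fun f => rfl⟩
    rw [← LinearMap.ker_eq_bot, LinearMap.ker_eq_bot']
    intro f hf
    exact ker_of_simple f hn hf
  obtain ⟨x₀, hx₀⟩ := Module.End.exists_eigenvalue (T : Module.End K N)
  obtain ⟨n₀, hn₀, hn₀'⟩ := hx₀.exists_hasEigenvector
  have hTn₀ : T n₀ = x₀ • n₀ := Module.End.mem_eigenspace_iff.mp hn₀
  have hx₀0 : x₀ ≠ 0 := by
    rintro rfl
    rw [zero_smul, T.map_eq_zero_iff] at hTn₀
    exact hn₀' hTn₀
  obtain ⟨ev, hevi, hevf⟩ := hev n₀ hn₀'
  have hfE : Module.Finite K (N →ₗ[A] V) := Module.Finite.of_injective ev hevi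
  have hntH : Nontrivial (N →ₗ[A] V) := by
    refine ⟨⟨N.subtype, 0, fun h => ?_⟩⟩
    obtain ⟨n, hn⟩ := exists_ne (0 : N)
    have := LinearMap.congr_fun h n
    exact hn (Subtype.ext (by simpa using this))
  have hDR : Diag R := by
    refine diag_of_inj ev hevi (f := x₀⁻¹ • (s : Module.End K V)) ?_ (diag_smul hdiag _)
    intro f
    rw [hevf, LinearMap.smul_apply, hevf]
    have h1 := hR f n₀
    rw [hTn₀] at h1
    have h2 : R f (x₀ • n₀) = x₀ • R f n₀ := (R f).map_smul_of_tower x₀ n₀
    rw [h2] at h1
    show R f n₀ = x₀⁻¹ • s (f n₀)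
    rw [← h1, smul_smul, inv_mul_cancel₀ hx₀0, one_smul]
  obtain ⟨y₀, hy₀⟩ := Module.End.exists_eigenvalue R
  obtain ⟨f₀, hf₀, hf₀'⟩ := hy₀.exists_hasEigenvector
  have hRf₀ : R f₀ = y₀ • f₀ := Module.End.mem_eigenspace_iff.mp hf₀
  have hf₀i : Function.Injective f₀ := by
    rw [← LinearMap.ker_eq_bot, LinearMap.ker_eq_bot']
    intro n hn
    by_contra hne
    exact hf₀' (ker_of_simple f₀ hne hn)
  have hrel : ∀ n, s (f₀ n) = y₀ • f₀ (T n) := by
    intro n
    rw [← hR f₀ n, hRf₀]
    rfl
  have hy₀0 : y₀ ≠ 0 := by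
    rintro rfl
    have h1 := hrel n₀
    rw [zero_smul, s.map_eq_zero_iff] at h1
    exact hn₀' (hf₀i (by rw [h1, map_zero]))
  have hDT : Diag (T : Module.End K N) := by
    refine diag_of_inj (f₀.restrictScalars K) hf₀i (f := y₀⁻¹ • (s : Module.End K V)) ?_
      (diag_smul hdiag _)
    intro n
    show f₀ (T n) = y₀⁻¹ • s (f₀ n)
    rw [hrel, smul_smul, inv_mul_cancel₀ hy₀0, one_smul]
  obtain ⟨b, x, hb⟩ := exists_eigenbasis hDT
  obtain ⟨c, y, hc⟩ := exists_eigenbasis hDR
  let v : Fin (finrank K N) × Fin (finrank K (N →ₗ[A] V)) → V := fun p => c p.2 (b p.1)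
  have hv : ∀ p, s (v p) = (x p.1 * y p.2) • v p := by
    intro p
    show s (c p.2 (b p.1)) = _
    rw [← hR, hc]
    have h1 : T (b p.1) = x p.1 • b p.1 := hb p.1
    rw [h1]
    show y p.2 • (c p.2) (x p.1 • b p.1) = _
    have h2 : (c p.2) (x p.1 • b p.1) = x p.1 • (c p.2) (b p.1) :=
      (c p.2).map_smul_of_tower _ _
    rw [h2, smul_smul, mul_comm]
  have hspan : ⊤ ≤ Submodule.span K (Set.range v) := by
    have h1 : ∀ (f : N →ₗ[A] V) (n : N), f n ∈ Submodule.span K (Set.range v) := by
      intro f n
      have h2 : f n = ∑ j, c.repr f j • (c j) n := by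
        conv_lhs => rw [← c.sum_repr f]
        rw [LinearMap.sum_apply]
        rfl
      rw [h2]
      refine Submodule.sum_mem _ fun j _ => Submodule.smul_mem _ _ ?_
      have h3 : (c j) n = ∑ i, b.repr n i • (c j) (b i) := by
        conv_lhs => rw [← b.sum_repr n]
        rw [map_sum]
        exact Finset.sum_congr rfl fun i _ => (c j).map_smul_of_tower _ _
      rw [h3]
      exact Submodule.sum_mem _ fun i _ => Submodule.smul_mem _ _
        (Submodule.subset_span ⟨(i, j), rfl⟩)
    have h4 : ∀ w ∈ isotypicComponent A V N, w ∈ Submodule.span K (Set.range v) := by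
      intro w h2
      rw [isotypicComponent, sSup_eq_iSup'] at h2
      induction h2 using Submodule.iSup_induction' with
      | mem M w hw =>
        obtain ⟨e⟩ := M.2
        have := h1 (M.1.subtype.comp e.symm.toLinearMap) (e ⟨w, hw⟩)
        simpa using this
      | zero => exact Submodule.zero_mem _
      | add v w _ _ h1 h2 => exact Submodule.add_mem _ h1 h2
    intro w _
    exact h4 w (by rw [hT]; trivial)
  have hpos : 0 < finrank K N := Module.finrank_pos
  have hcard : Fintype.card (Fin (finrank K N) × Fin (finrank K (N →ₗ[A] V))) =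
      finrank K N * finrank K (N →ₗ[A] V) := by simp
  have hge : finrank K V ≤ finrank K N * finrank K (N →ₗ[A] V) := by
    have h1 := finrank_range_le_card (R := K) (b := v)
    rw [Set.finrank, top_le_iff.mp hspan, finrank_top, hcard] at h1
    exact h1
  have hm : finrank K (N →ₗ[A] V) = m := by
    rw [hd, mul_comm m] at hge
    exact le_antisymm hE (Nat.le_of_mul_le_mul_left hge hpos)
  have hcd : Fintype.card (Fin (finrank K N) × Fin (finrank K (N →ₗ[A] V))) = finrank K V := by
    rw [hcard, hm, hd, mul_comm]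
  let B : Basis (Fin (finrank K N) × Fin (finrank K (N →ₗ[A] V))) K V :=
    basisOfTopLeSpanOfCardEqFinrank v hspan hcd
  have hB : ∀ p, (s : Module.End K V) (B p) = (x p.1 * y p.2) • B p := by
    intro p
    have h1 : B p = v p := by
      show basisOfTopLeSpanOfCardEqFinrank v hspan hcd p = v p
      rw [coe_basisOfTopLeSpanOfCardEqFinrank]
    rw [h1]
    exact hv p
  subst hm
  exact ⟨x, y, fun ζ => eig_count B (fun p => x p.1 * y p.2) hB ζ⟩

end generic

/-- The multiplicities of a tensor product. -/
theorem comb {K : Type*} [Field K] [DecidableEq K] {α β : ℕ} (x : Fin α → K) (y : Fin β → K)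
    (M : K → ℕ) (hM : ∀ ζ, M ζ =
      (Finset.univ.filter fun p : Fin α × Fin β => x p.1 * y p.2 = ζ).card)
    {c : K} (hc : c ≠ 0) {k : ℕ} (hk : ∀ ζ, ζ ≠ c → M ζ ≤ k) :
    (∀ ζ, α ∣ M ζ) ∨ (∀ ζ, β ∣ M ζ) ∨ (M c ≤ k * α ∧ M c ≤ k * β) := by
  have hM1 : ∀ ζ, M ζ = ∑ j, (Finset.univ.filter fun i : Fin α => x i * y j = ζ).card := by
    intro ζ
    rw [hM, Finset.card_filter, ← Finset.univ_product_univ, Finset.sum_product_right]
    exact Finset.sum_congr rfl fun j _ => (Finset.card_filter _ _).symm
  have hM2 : ∀ ζ, M ζ = ∑ i, (Finset.univ.filter fun j : Fin β => x i * y j = ζ).card := by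
    intro ζ
    rw [hM, Finset.card_filter, ← Finset.univ_product_univ, Finset.sum_product]
    exact Finset.sum_congr rfl fun j _ => (Finset.card_filter _ _).symm
  by_cases h1 : ∃ i i', x i ≠ x i'
  · by_cases h2 : ∃ j j', y j ≠ y j'
    · right; right
      obtain ⟨i, i', hi⟩ := h1
      obtain ⟨j, j', hj⟩ := h2
      have hxe : ∀ i₀, ∃ i₁, x i₁ ≠ x i₀ := by
        intro i₀
        by_contra h
        push Not at h
        exact hi ((h i).trans (h i').symm)
      have hye : ∀ i₀, ∃ i₁, y i₁ ≠ y i₀ := by
        intro i₀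
        by_contra h
        push Not at h
        exact hj ((h j).trans (h j').symm)
      constructor
      · rw [hM2]
        have h3 : ∀ i₀ ∈ (Finset.univ : Finset (Fin α)),
            (Finset.univ.filter fun j : Fin β => x i₀ * y j = c).card ≤ k := by
          intro i₀ _
          obtain ⟨i₁, hi₁⟩ := hxe i₀
          rcases (Finset.univ.filter fun j : Fin β => x i₀ * y j = c).eq_empty_or_nonempty with h | ⟨j₀, hj₀⟩
          · rw [h, Finset.card_empty]; exact Nat.zero_le _
          · have hj₀' := (Finset.mem_filter.mp hj₀).2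
            have hx0 : x i₀ ≠ 0 := by
              intro h0
              rw [h0, zero_mul] at hj₀'
              exact hc hj₀'.symm
            have hy0 : y j₀ ≠ 0 := by
              intro h0
              rw [h0, mul_zero] at hj₀'
              exact hc hj₀'.symm
            have h4 : x i₁ * y j₀ ≠ c := by
              rw [← hj₀']
              intro h
              exact hi₁ (mul_right_cancel₀ hy0 h)
            refine le_trans ?_ (hk _ h4)
            rw [hM2]
            refine le_trans ?_ (Finset.single_le_sum (fun i _ => Nat.zero_le _)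
              (Finset.mem_univ i₁))
            refine Finset.card_le_card fun j hj => ?_
            rw [Finset.mem_filter] at hj ⊢
            refine ⟨hj.1, ?_⟩
            have h5 : y j = y j₀ := mul_left_cancel₀ hx0 (hj.2.trans hj₀'.symm)
            rw [h5]
        have h4 := Finset.sum_le_card_nsmul _ _ _ h3
        rw [Finset.card_univ, Fintype.card_fin, smul_eq_mul, mul_comm] at h4
        exact h4
      · rw [hM1]
        have h3 : ∀ j₀ ∈ (Finset.univ : Finset (Fin β)),
            (Finset.univ.filter fun i : Fin α => x i * y j₀ = c).card ≤ k := by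
          intro j₀ _
          obtain ⟨j₁, hj₁⟩ := hye j₀
          rcases (Finset.univ.filter fun i : Fin α => x i * y j₀ = c).eq_empty_or_nonempty with h | ⟨i₀, hi₀⟩
          · rw [h, Finset.card_empty]; exact Nat.zero_le _
          · have hi₀' := (Finset.mem_filter.mp hi₀).2
            have hx0 : x i₀ ≠ 0 := by
              intro h0
              rw [h0, zero_mul] at hi₀'
              exact hc hi₀'.symm
            have hy0 : y j₀ ≠ 0 := by
              intro h0
              rw [h0, mul_zero] at hi₀'
              exact hc hi₀'.symm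
            have h4 : x i₀ * y j₁ ≠ c := by
              rw [← hi₀']
              intro h
              exact hj₁ (mul_left_cancel₀ hx0 h)
            refine le_trans ?_ (hk _ h4)
            rw [hM1]
            refine le_trans ?_ (Finset.single_le_sum (fun i _ => Nat.zero_le _)
              (Finset.mem_univ j₁))
            refine Finset.card_le_card fun i hi => ?_
            rw [Finset.mem_filter] at hi ⊢
            refine ⟨hi.1, ?_⟩
            have h5 : x i = x i₀ := mul_right_cancel₀ hy0 (hi.2.trans hi₀'.symm)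
            rw [h5]
        have h4 := Finset.sum_le_card_nsmul _ _ _ h3
        rw [Finset.card_univ, Fintype.card_fin, smul_eq_mul, mul_comm] at h4
        exact h4
    · right; left
      push Not at h2
      intro ζ
      rw [hM2]
      refine Finset.dvd_sum fun i _ => ?_
      by_cases h : ∃ j, x i * y j = ζ
      · obtain ⟨j, hj⟩ := h
        rw [Finset.filter_true_of_mem (fun j' _ => by rw [h2 j' j]; exact hj), Finset.card_univ,
          Fintype.card_fin]
      · push Not at h
        rw [Finset.filter_false_of_mem (fun j' _ => h j'), Finset.card_empty]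
        exact dvd_zero _
  · left
    push Not at h1
    intro ζ
    rw [hM1]
    refine Finset.dvd_sum fun j _ => ?_
    by_cases h : ∃ i, x i * y j = ζ
    · obtain ⟨i, hi⟩ := h
      rw [Finset.filter_true_of_mem (fun i' _ => by rw [h1 i' i]; exact hi), Finset.card_univ,
        Fintype.card_fin]
    · push Not at h
      rw [Finset.filter_false_of_mem (fun i' _ => h i'), Finset.card_empty]
      exact dvd_zero _

end Pool.Agent.RM
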